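import Mathlib

set_option linter.unusedVariables false

/-!
# Arithmetic: which pairs `(n, x)` are covered by the two families of bounds
-/

namespace Pool.Agent.Helper976.ELSS

/-- an integer near the vertex of a parabola -/
theorem exists_nat_quad (a b c : ℝ) (ha : 0 < a) (hb : a ≤ b) (hd : a ^ 2 ≤ b ^ 2 - 4 * a * c) :
    ∃ m : ℕ, 1 ≤ m ∧ a * m ^ 2 - b * m + c ≤ 0 := by
  set z : ℝ := b / (2 * a) with hz
  have hz1 : b = 2 * a * z := by rw [hz]; field_simp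
  have hz2 : 1 / 2 ≤ z := by
    rw [hz, le_div_iff₀ (by positivity)]; linarith
  set m : ℕ := ⌊z + 1 / 2⌋₊ with hm
  have h1 : (m : ℝ) ≤ z + 1 / 2 := Nat.floor_le (by linarith)
  have h2 : z + 1 / 2 < m + 1 := Nat.lt_floor_add_one _
  have hm1 : 1 ≤ m := by
    rw [hm, Nat.one_le_floor_iff]; linarith
  refine ⟨m, hm1, ?_⟩
  have h3 : ((m : ℝ) - z) ^ 2 ≤ 1 / 4 := by
    have : |(m : ℝ) - z| ≤ 1 / 2 := by rw [abs_le]; constructor <;> linarith
    calc ((m : ℝ) - z) ^ 2 = |(m : ℝ) - z| ^ 2 := (sq_abs _).symm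
      _ ≤ (1 / 2) ^ 2 := by gcongr
      _ = 1 / 4 := by norm_num
  have h4 : a * m ^ 2 - b * m + c = a * ((m : ℝ) - z) ^ 2 - (b ^ 2 - 4 * a * c) / (4 * a) := by
    rw [hz1]; field_simp; ring
  rw [h4]
  have h5 : a * ((m : ℝ) - z) ^ 2 ≤ a * (1 / 4) := mul_le_mul_of_nonneg_left h3 ha.le
  have h6 : a / 4 ≤ (b ^ 2 - 4 * a * c) / (4 * a) := by
    rw [le_div_iff₀ (by positivity)]; nlinarith
  linarith

/-- the range of the first family -/
theorem range1 (n x : ℝ) (hx : 1 ≤ x) (hn : 2 * x + 1 ≤ n) (h : x ^ 4 ≤ n ^ 2 * (4 * x - 1)) :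
    ∃ m : ℕ, 1 ≤ m ∧ (m * x - n) ^ 2 ≤ m * n - m * (m - 1) / 2 := by
  obtain ⟨m, h1, h2⟩ := exists_nat_quad (x ^ 2 + 1 / 2) (2 * n * x + n + 1 / 2) (n ^ 2)
    (by positivity) (by nlinarith) (by
      have h3 : x ^ 2 ≤ n * (2 * x + 1) := by nlinarith
      nlinarith)
  exact ⟨m, h1, by nlinarith⟩

theorem range1' (n x : ℝ) (hx : 1 ≤ x) (hn : 2 * x + 1 ≤ n) (h : 10 * x ^ 3 ≤ 39 * n ^ 2) :
    ∃ m : ℕ, 1 ≤ m ∧ (m * x - n) ^ 2 ≤ m * n - m * (m - 1) / 2 := by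
  apply range1 n x hx hn
  rcases le_total x 15 with h15 | h15
  · have h1 : (2 * x + 1) ^ 2 ≤ n ^ 2 := by
      apply pow_le_pow_left₀ (by linarith) hn
    have h2 : (2 * x + 1) ^ 2 * (4 * x - 1) ≤ n ^ 2 * (4 * x - 1) :=
      mul_le_mul_of_nonneg_right h1 (by linarith)
    have h3 : x ^ 4 ≤ (2 * x + 1) ^ 2 * (4 * x - 1) := by
      have : x ^ 4 ≤ 15 * x ^ 3 := by
        have : (0:ℝ) ≤ x ^ 3 := by positivity
        nlinarith
      have h4 : (1:ℝ) ≤ x ^ 2 := by nlinarith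
      have h5 : (1:ℝ) ≤ x ^ 3 := by nlinarith
      nlinarith
    linarith
  · have h1 : x ^ 3 * (10 * (4 * x - 1)) ≤ (39 / 10 * n ^ 2) * (10 * (4 * x - 1)) :=
      mul_le_mul_of_nonneg_right (by linarith) (by linarith)
    have h2 : (0:ℝ) ≤ x ^ 3 := by positivity
    have h3 : 39 * x ^ 4 ≤ x ^ 3 * (10 * (4 * x - 1)) := by nlinarith
    linarith

/-- the range near the complete graph -/
theorem range2 (n y : ℝ) (hn : 166 ≤ n) (hy0 : 1 / 2 ≤ y) (hy : 16 * y ^ 4 ≤ n ^ 3)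
    (hy2 : 2 * (n - 1) < 4 * y ^ 2) :
    ∃ M : ℕ, 1 ≤ M ∧ (n - 2 * M * y) ^ 2 ≤ 2 * M * (M - 1) * (n - 1) - (M - 1) := by
  have hy7 : y ≤ n / 7 := by
    by_contra hcon
    push Not at hcon
    have h1 : (n / 7) ^ 4 < y ^ 4 := pow_lt_pow_left₀ hcon (by linarith) (by norm_num)
    have h2 : (0:ℝ) < n ^ 3 := by positivity
    nlinarith
  obtain ⟨M, h1, h2⟩ := exists_nat_quad (4 * y ^ 2 - 2 * (n - 1)) (4 * n * y - 2 * (n - 1) - 1)
    (n ^ 2 - 1) (by linarith) (by nlinarith) (by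
      have h3 : 0 ≤ n * (n / 7 - y) * n := by
        have : 0 ≤ n / 7 - y := by linarith
        positivity
      have h4 : (0:ℝ) ≤ n * y ^ 2 := by positivity
      have h5 : (0:ℝ) ≤ n * y := by positivity
      have h6 : (0:ℝ) ≤ n ^ 2 * (n - 166) := by
        have : 0 ≤ n - 166 := by linarith
        positivity
      nlinarith)
  exact ⟨M, h1, by nlinarith⟩

/-- all `x ≥ n / 4` when `n ≤ 165` -/
theorem range3 (n x : ℝ) (hn2 : 2 ≤ n) (hn : n ≤ 165) (hx : n / 4 ≤ x) (hx2 : 2 * x + 1 ≤ n)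
    (h4 : 4 * n - 6 < (4 * x - n) ^ 2) (h3 : 3 * n - 3 < (3 * x - n) ^ 2)
    (hB : 40 * (n - 1) - 4 < (10 * x - 4 * n) ^ 2) (h2 : 2 * n - 1 < (2 * x - n) ^ 2) : False := by
  have g4 : 0.1545 * n < 4 * x - n := by
    by_contra hcon
    push Not at hcon
    have h0 : 0 ≤ 4 * x - n := by linarith
    have : (4 * x - n) ^ 2 ≤ (0.1545 * n) ^ 2 := pow_le_pow_left₀ h0 hcon 2
    nlinarith
  have g3 : 0.1342 * n < |3 * x - n| := by
    by_contra hcon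
    push Not at hcon
    have : |3 * x - n| ^ 2 ≤ (0.1342 * n) ^ 2 := pow_le_pow_left₀ (abs_nonneg _) hcon 2
    rw [sq_abs] at this
    nlinarith
  have gB : 0.49 * n < |10 * x - 4 * n| := by
    by_contra hcon
    push Not at hcon
    have : |10 * x - 4 * n| ^ 2 ≤ (0.49 * n) ^ 2 := pow_le_pow_left₀ (abs_nonneg _) hcon 2
    rw [sq_abs] at this
    nlinarith
  have g2 : 0.109 * n < |2 * x - n| := by
    by_contra hcon
    push Not at hcon
    have : |2 * x - n| ^ 2 ≤ (0.109 * n) ^ 2 := pow_le_pow_left₀ (abs_nonneg _) hcon 2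
    rw [sq_abs] at this
    nlinarith
  rcases lt_abs.1 g3 with a | a
  · rcases lt_abs.1 gB with b | b
    · rcases lt_abs.1 g2 with c | c
      · linarith
      · linarith
    · linarith
  · linarith

/-- the exact statement: in the listed ranges the two families contradict `K < x²` -/
theorem exact_range (n e K : ℕ) (hn : 2 ≤ n) (hne : n ≤ e) (he : 2 * e ≤ n * (n - 1))
    (hA : ∀ m : ℕ, 1 ≤ m → 4 * m * e + 2 * m * n ≤ 2 * m ^ 2 * K + m * (m - 1) + 2 * n ^ 2)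
    (hB : ∀ k : ℕ, 4 * k * (k + 1) * e + 2 * k * (k + 1) * n ≤
      4 * (k + 1) ^ 2 * K + 2 * k * (k + 1) + k ^ 2 * n ^ 2 + k)
    (hK : K * n ^ 2 < e ^ 2)
    (h : n ≤ 165 ∨ e ≤ 47 * n ∨ 10 * e ^ 3 ≤ 39 * n ^ 5 ∨ (n ^ 2 - 2 * e) ^ 4 ≤ n ^ 7) : False := by
  have hn0 : (0:ℝ) < n := by exact_mod_cast (by omega : 0 < n)
  have hn2 : (2:ℝ) ≤ n := by exact_mod_cast hn
  set x : ℝ := e / n with hx
  have hex : (e : ℝ) = n * x := by rw [hx]; field_simp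
  have hx1 : 1 ≤ x := by
    rw [hx, le_div_iff₀ hn0, one_mul]; exact_mod_cast hne
  have heR : 2 * (e : ℝ) ≤ n * (n - 1) := by
    have : ((2 * e : ℕ) : ℝ) ≤ ((n * (n - 1) : ℕ) : ℝ) := by exact_mod_cast he
    push_cast [Nat.cast_sub (by omega : 1 ≤ n)] at this
    exact this
  have hnx : 2 * x + 1 ≤ n := by
    rw [hex] at heR
    have : n * (2 * x) ≤ n * ((n:ℝ) - 1) := by linarith
    have := le_of_mul_le_mul_left this hn0
    linarith
  have hKR : (K : ℝ) < x ^ 2 := by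
    have h1 : (K : ℝ) * n ^ 2 < e ^ 2 := by exact_mod_cast hK
    rw [hex] at h1
    have h2 : (K : ℝ) * n ^ 2 < x ^ 2 * n ^ 2 := by linarith [mul_pow (n:ℝ) x 2]
    exact lt_of_mul_lt_mul_right h2 (by positivity)
  have hAR : ∀ m : ℕ, 1 ≤ m → (m * n - m * (m - 1) / 2 : ℝ) < (m * x - n) ^ 2 := by
    intro m hm
    have h1 := hA m hm
    have h2 : (4 * m * e + 2 * m * n : ℝ) ≤ 2 * m ^ 2 * K + m * (m - 1) + 2 * n ^ 2 := by
      have : ((4 * m * e + 2 * m * n : ℕ) : ℝ) ≤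
          ((2 * m ^ 2 * K + m * (m - 1) + 2 * n ^ 2 : ℕ) : ℝ) := by exact_mod_cast h1
      push_cast [Nat.cast_sub hm] at this
      exact this
    have hm0 : (0:ℝ) < m := by exact_mod_cast (by omega : 0 < m)
    have h3 : 2 * (m:ℝ) ^ 2 * K < 2 * m ^ 2 * x ^ 2 := by
      apply mul_lt_mul_of_pos_left hKR; positivity
    rw [hex] at h2
    nlinarith
  have hBR : ∀ k : ℕ, (2 * k * (k + 1) * (n - 1) - k : ℝ) < (2 * (k + 1) * x - k * n) ^ 2 := by
    intro k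
    have h1 := hB k
    have h2 : (4 * k * (k + 1) * e + 2 * k * (k + 1) * n : ℝ) ≤
      4 * (k + 1) ^ 2 * K + 2 * k * (k + 1) + k ^ 2 * n ^ 2 + k := by exact_mod_cast h1
    have h3 : 4 * ((k:ℝ) + 1) ^ 2 * K < 4 * (k + 1) ^ 2 * x ^ 2 := by
      apply mul_lt_mul_of_pos_left hKR; positivity
    rw [hex] at h2
    nlinarith
  have r1 : 10 * x ^ 3 ≤ 39 * (n:ℝ) ^ 2 → False := by
    intro h1
    obtain ⟨m, h2, h3⟩ := range1' n x hx1 hnx h1
    exact absurd (hAR m h2) (not_lt.2 h3)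
  have r165 : n ≤ 165 → False := by
    intro h165
    have h165' : (n:ℝ) ≤ 165 := by exact_mod_cast h165
    rcases le_total ((n:ℝ) / 4) x with h1 | h1
    · have a4 := hAR 4 (by norm_num)
      have a3 := hAR 3 (by norm_num)
      have a2 := hAR 2 (by norm_num)
      have b4 := hBR 4
      push_cast at a4 a3 a2 b4
      refine range3 n x hn2 h165' h1 hnx ?_ ?_ ?_ ?_
      · linarith
      · linarith
      · calc 40 * ((n:ℝ) - 1) - 4 = 2 * 4 * (4 + 1) * (n - 1) - 4 := by ring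
          _ < _ := b4
          _ = _ := by ring
      · linarith
    · apply r1
      have h2 : x ^ 3 ≤ (n / 4 : ℝ) ^ 3 := pow_le_pow_left₀ (by linarith) h1 3
      have h3 : (n:ℝ) ^ 3 ≤ 165 * n ^ 2 := by
        have : (0:ℝ) ≤ n ^ 2 := by positivity
        nlinarith
      nlinarith
  rcases h with h | h | h | h
  · exact r165 h
  · by_cases h165 : n ≤ 165
    · exact r165 h165
    · apply r1
      have h47 : x ≤ 47 := by
        rw [hx, div_le_iff₀ hn0]; exact_mod_cast h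
      have h1 : x ^ 3 ≤ 47 ^ 3 := pow_le_pow_left₀ (by linarith) h47 3
      have h2 : (166:ℝ) ≤ n := by exact_mod_cast (by omega : 166 ≤ n)
      have h3 : (166:ℝ) ^ 2 ≤ n ^ 2 := pow_le_pow_left₀ (by norm_num) h2 2
      nlinarith
  · apply r1
    have h1 : 10 * (e:ℝ) ^ 3 ≤ 39 * n ^ 5 := by exact_mod_cast h
    rw [hex, mul_pow] at h1
    have e1 : (n:ℝ) ^ 3 * (10 * x ^ 3) = 10 * ((n:ℝ) ^ 3 * x ^ 3) := by ring
    have e2 : (n:ℝ) ^ 3 * (39 * (n:ℝ) ^ 2) = 39 * (n:ℝ) ^ 5 := by ring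
    have h2 : (n:ℝ) ^ 3 * (10 * x ^ 3) ≤ (n:ℝ) ^ 3 * (39 * (n:ℝ) ^ 2) := by
      rw [e1, e2]; exact h1
    exact le_of_mul_le_mul_left h2 (by positivity)
  · by_cases h165 : n ≤ 165
    · exact r165 h165
    have h166 : (166:ℝ) ≤ n := by exact_mod_cast (by omega : 166 ≤ n)
    set y : ℝ := n / 2 - x with hy
    have hy0 : 1 / 2 ≤ y := by rw [hy]; linarith
    have h2e : 2 * e ≤ n ^ 2 := by
      refine he.trans ?_
      rw [pow_two]; exact Nat.mul_le_mul_left _ (Nat.sub_le _ _)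
    have h1 : ((n:ℝ) ^ 2 - 2 * e) ^ 4 ≤ n ^ 7 := by
      have : (((n ^ 2 - 2 * e) ^ 4 : ℕ) : ℝ) ≤ ((n ^ 7 : ℕ) : ℝ) := by exact_mod_cast h
      push_cast [Nat.cast_sub h2e] at this
      exact this
    have h2 : (n:ℝ) ^ 2 - 2 * e = 2 * n * y := by rw [hex, hy]; ring
    rw [h2] at h1
    have h3 : 16 * y ^ 4 ≤ (n:ℝ) ^ 3 := by
      have e1 : (n:ℝ) ^ 4 * (16 * y ^ 4) = (2 * (n:ℝ) * y) ^ 4 := by ring
      have e2 : (n:ℝ) ^ 4 * (n:ℝ) ^ 3 = (n:ℝ) ^ 7 := by ring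
      have h4 : (n:ℝ) ^ 4 * (16 * y ^ 4) ≤ (n:ℝ) ^ 4 * (n:ℝ) ^ 3 := by
        rw [e1, e2]; exact h1
      exact le_of_mul_le_mul_left h4 (by positivity)
    rcases lt_or_ge (2 * ((n:ℝ) - 1)) (4 * y ^ 2) with h5 | h5
    · obtain ⟨M, h6, h7⟩ := range2 n y h166 hy0 h3 h5
      obtain ⟨k, rfl⟩ : ∃ k, M = k + 1 := ⟨M - 1, by omega⟩
      have h8 := hBR k
      push_cast at h7
      have h9 : (2 * ((k:ℝ) + 1) * x - k * n) ^ 2 = (n - 2 * (k + 1) * y) ^ 2 := by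
        rw [hy]; ring
      rw [h9] at h8
      nlinarith
    · have h6 := hAR 2 (by norm_num)
      push_cast at h6
      have h9 : (2 * x - (n:ℝ)) ^ 2 = 4 * y ^ 2 := by rw [hy]; ring
      rw [h9] at h6
      linarith

end Pool.Agent.Helper976.ELSS
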