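import Mathlib

set_option linter.unusedVariables false

/-!
# Arithmetic: the constant factor
-/

namespace Pool.Agent.Helper976.ELSS

section

variable (n e K : ℕ) (hn : 2 ≤ n) (hne : n ≤ e) (he : 2 * e ≤ n * (n - 1))
    (hA : ∀ m : ℕ, 1 ≤ m → 4 * m * e + 2 * m * n ≤ 2 * m ^ 2 * K + m * (m - 1) + 2 * n ^ 2)
    (hB : ∀ k : ℕ, 4 * k * (k + 1) * e + 2 * k * (k + 1) * n ≤
      4 * (k + 1) ^ 2 * K + 2 * k * (k + 1) + k ^ 2 * n ^ 2 + k)

include hn hA in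
theorem realA (m : ℕ) (hm : 1 ≤ m) (hmn : m ≤ n + 1) :
    (m:ℝ) ^ 2 * ((e:ℝ) / n) ^ 2 - (m * ((e:ℝ) / n) - n) ^ 2 ≤ m ^ 2 * K := by
  have hn0 : (0:ℝ) < n := by exact_mod_cast (by omega : 0 < n)
  set x : ℝ := e / n with hx
  have hex : (e : ℝ) = n * x := by rw [hx]; field_simp
  have h1 := hA m hm
  have h2 : (4 * m * e + 2 * m * n : ℝ) ≤ 2 * m ^ 2 * K + m * (m - 1) + 2 * n ^ 2 := by
    have : ((4 * m * e + 2 * m * n : ℕ) : ℝ) ≤
        ((2 * m ^ 2 * K + m * (m - 1) + 2 * n ^ 2 : ℕ) : ℝ) := by exact_mod_cast h1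
    push_cast [Nat.cast_sub hm] at this
    exact this
  have hm0 : (1:ℝ) ≤ m := by exact_mod_cast hm
  have hmn' : (m:ℝ) ≤ n + 1 := by exact_mod_cast hmn
  rw [hex] at h2
  nlinarith

include hn hB in
theorem realB (k : ℕ) :
    4 * ((k:ℝ) + 1) ^ 2 * ((e:ℝ) / n) ^ 2 - (2 * (k + 1) * ((e:ℝ) / n) - k * n) ^ 2 ≤
      4 * (k + 1) ^ 2 * K := by
  have hn0 : (0:ℝ) < n := by exact_mod_cast (by omega : 0 < n)
  have hn2 : (2:ℝ) ≤ n := by exact_mod_cast hn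
  set x : ℝ := e / n with hx
  have hex : (e : ℝ) = n * x := by rw [hx]; field_simp
  have h1 := hB k
  have h2 : (4 * k * (k + 1) * e + 2 * k * (k + 1) * n : ℝ) ≤
      4 * (k + 1) ^ 2 * K + 2 * k * (k + 1) + k ^ 2 * n ^ 2 + k := by exact_mod_cast h1
  have hk0 : (0:ℝ) ≤ k := by positivity
  rw [hex] at h2
  have h3 : 0 ≤ (k:ℝ) * (k + 1) * (n - 2) := by
    have : 0 ≤ (n:ℝ) - 2 := by linarith
    positivity
  nlinarith

include hn hne he hA in
theorem factor1 : (1 - 1 / (2 * ((n ^ 2 / e : ℕ) : ℝ) + 1) ^ 2) * ((e:ℝ) / n) ^ 2 ≤ K := by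
  have hn0 : (0:ℝ) < n := by exact_mod_cast (by omega : 0 < n)
  set q := n ^ 2 / e with hq
  have he0 : 0 < e := by omega
  have hqe : q * e ≤ n ^ 2 := Nat.div_mul_le_self _ _
  have hqe2 : n ^ 2 < (q + 1) * e := by
    rw [hq]; exact Nat.lt_mul_of_div_lt (Nat.lt_succ_self _) he0
  have h2e : 2 * e ≤ n ^ 2 := by
    refine he.trans ?_
    rw [pow_two]; exact Nat.mul_le_mul_left _ (Nat.sub_le _ _)
  have hq1 : 2 ≤ q := by
    rw [hq, Nat.le_div_iff_mul_le he0]; exact h2e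
  have hqn : q ≤ n := by
    have : q * n ≤ n * n := by
      calc q * n ≤ q * e := Nat.mul_le_mul_left _ hne
        _ ≤ n ^ 2 := hqe
        _ = n * n := pow_two n
    exact Nat.le_of_mul_le_mul_right this (by omega)
  set x : ℝ := e / n with hx
  have hex : (e : ℝ) = n * x := by rw [hx]; field_simp
  have hqx : (q:ℝ) * x ≤ n := by
    have h1 : (q:ℝ) * e ≤ n ^ 2 := by exact_mod_cast hqe
    rw [hex] at h1
    have : (n:ℝ) * (q * x) ≤ n * n := by nlinarith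
    exact le_of_mul_le_mul_left this hn0
  have hqx2 : (n:ℝ) < (q + 1) * x := by
    have h1 : (n:ℝ) ^ 2 < (q + 1) * e := by exact_mod_cast hqe2
    rw [hex] at h1
    have : (n:ℝ) * n < n * ((q + 1) * x) := by nlinarith
    exact lt_of_mul_lt_mul_left this hn0.le
  have hx0 : 0 < x := by rw [hx]; have : (0:ℝ) < e := by exact_mod_cast he0
                         positivity
  obtain ⟨m, hm, hmn, hm2⟩ : ∃ m : ℕ, 1 ≤ m ∧ m ≤ n + 1 ∧
      (2 * (q:ℝ) + 1) * |(m:ℝ) * x - n| ≤ m * x := by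
    rcases le_or_gt ((2 * (q:ℝ) + 1) * (n - q * x)) (q * x) with h | h
    · refine ⟨q, by omega, by omega, ?_⟩
      rw [abs_of_nonpos (by linarith)]
      linarith
    · refine ⟨q + 1, by omega, by omega, ?_⟩
      push_cast
      rw [abs_of_pos (by linarith)]
      nlinarith
  have hA' := realA n e K hn hA m hm hmn
  rw [← hx] at hA'
  have hm0 : (0:ℝ) < m := by exact_mod_cast (by omega : 0 < m)
  have hQ : (0:ℝ) < (2 * (q:ℝ) + 1) ^ 2 := by positivity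
  have h5 : ((m:ℝ) * x - n) ^ 2 ≤ (m * x) ^ 2 / (2 * (q:ℝ) + 1) ^ 2 := by
    rw [le_div_iff₀ hQ]
    have h6 : 0 ≤ (2 * (q:ℝ) + 1) * |(m:ℝ) * x - n| := by positivity
    calc ((m:ℝ) * x - n) ^ 2 * (2 * (q:ℝ) + 1) ^ 2 = ((2 * (q:ℝ) + 1) * |(m:ℝ) * x - n|) ^ 2 := by
          rw [mul_pow, sq_abs]; ring
      _ ≤ (m * x) ^ 2 := pow_le_pow_left₀ h6 hm2 2
  have h6 : (m:ℝ) ^ 2 * ((1 - 1 / (2 * (q:ℝ) + 1) ^ 2) * x ^ 2) ≤ m ^ 2 * K := by
    have : (m:ℝ) ^ 2 * ((1 - 1 / (2 * (q:ℝ) + 1) ^ 2) * x ^ 2) =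
        m ^ 2 * x ^ 2 - (m * x) ^ 2 / (2 * (q:ℝ) + 1) ^ 2 := by ring
    rw [this]; linarith
  exact le_of_mul_le_mul_left h6 (by positivity)

include hn hne he hA hB in
theorem factor2 : (48 / 49 : ℝ) * ((e:ℝ) / n) ^ 2 ≤ K := by
  have hn0 : (0:ℝ) < n := by exact_mod_cast (by omega : 0 < n)
  have he0 : 0 < e := by omega
  set x : ℝ := e / n with hx
  have hex : (e : ℝ) = n * x := by rw [hx]; field_simp
  have hx0 : 0 < x := by rw [hx]; have : (0:ℝ) < e := by exact_mod_cast he0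
                         positivity
  have heR : 2 * (e : ℝ) ≤ n * (n - 1) := by
    have : ((2 * e : ℕ) : ℝ) ≤ ((n * (n - 1) : ℕ) : ℝ) := by exact_mod_cast he
    push_cast [Nat.cast_sub (by omega : 1 ≤ n)] at this
    exact this
  have hnx : 2 * x + 1 ≤ n := by
    rw [hex] at heR
    have : n * (2 * x) ≤ n * ((n:ℝ) - 1) := by linarith
    have := le_of_mul_le_mul_left this hn0
    linarith
  have ha : ∀ m : ℕ, 1 ≤ m → m ≤ n + 1 → 7 * |(m:ℝ) * x - n| ≤ m * x → (48 / 49 : ℝ) * x ^ 2 ≤ K := by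
    intro m hm hmn h7
    have hA' := realA n e K hn hA m hm hmn
    rw [← hx] at hA'
    have hm0 : (0:ℝ) < m := by exact_mod_cast (by omega : 0 < m)
    have h5 : 49 * ((m:ℝ) * x - n) ^ 2 ≤ (m * x) ^ 2 := by
      have h6 : 0 ≤ 7 * |(m:ℝ) * x - n| := by positivity
      calc 49 * ((m:ℝ) * x - n) ^ 2 = (7 * |(m:ℝ) * x - n|) ^ 2 := by
            rw [mul_pow, sq_abs]; ring
        _ ≤ (m * x) ^ 2 := pow_le_pow_left₀ h6 h7 2
    have h6 : (m:ℝ) ^ 2 * ((48 / 49 : ℝ) * x ^ 2) ≤ m ^ 2 * K := by nlinarith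
    exact le_of_mul_le_mul_left h6 (by positivity)
  have hn3 : 3 ≤ n := by
    by_contra hcon
    have : n = 2 := by omega
    subst this
    omega
  rcases le_total x (7 * n / 32) with h1 | h1
  · have hq4 : 4 ≤ n ^ 2 / e := by
      rw [Nat.le_div_iff_mul_le he0]
      have : (4 * e : ℝ) ≤ n ^ 2 := by rw [hex]; nlinarith
      exact_mod_cast this
    have hf := factor1 n e K hn hne he hA
    rw [← hx] at hf
    refine le_trans ?_ hf
    apply mul_le_mul_of_nonneg_right _ (by positivity)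
    have hq4' : (4:ℝ) ≤ ((n ^ 2 / e : ℕ) : ℝ) := by exact_mod_cast hq4
    have h5 : (49:ℝ) ≤ (2 * ((n ^ 2 / e : ℕ) : ℝ) + 1) ^ 2 := by nlinarith
    have h6 : 1 / (2 * ((n ^ 2 / e : ℕ) : ℝ) + 1) ^ 2 ≤ 1 / 49 :=
      one_div_le_one_div_of_le (by norm_num) h5
    linarith
  rcases le_total x (7 * n / 24) with h2 | h2
  · apply ha 4 (by norm_num) (by omega)
    push_cast
    rcases abs_cases (4 * x - n) with ⟨h3, _⟩ | ⟨h3, _⟩ <;> rw [h3] <;> linarith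
  rcases le_total x (7 * n / 18) with h3 | h3
  · apply ha 3 (by norm_num) (by omega)
    push_cast
    rcases abs_cases (3 * x - n) with ⟨h4, _⟩ | ⟨h4, _⟩ <;> rw [h4] <;> linarith
  rcases le_total x (7 * n / 16) with h4 | h4
  · have hB' := realB n e K hn hB 3
    rw [← hx] at hB'
    push_cast at hB'
    have h5 : 49 * (8 * x - 3 * n) ^ 2 ≤ (8 * x) ^ 2 := by
      have h6 : 7 * |8 * x - 3 * n| ≤ 8 * x := by
        rcases abs_cases (8 * x - 3 * n) with ⟨h7, _⟩ | ⟨h7, _⟩ <;> rw [h7] <;> linarith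
      calc 49 * (8 * x - 3 * n) ^ 2 = (7 * |8 * x - 3 * n|) ^ 2 := by
            rw [mul_pow, sq_abs]; ring
        _ ≤ (8 * x) ^ 2 := pow_le_pow_left₀ (by positivity) h6 2
    nlinarith
  · apply ha 2 (by norm_num) (by omega)
    push_cast
    rcases abs_cases (2 * x - n) with ⟨h5, _⟩ | ⟨h5, _⟩ <;> rw [h5] <;> linarith

end

end Pool.Agent.Helper976.ELSS
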