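import Mathlib
import Pool.Agent.LinesCross.Blow

set_option linter.unusedSectionVars false
set_option linter.unusedVariables false

/-!
# Halving lines with a prescribed number of points of a given set
-/

namespace Pool.Agent.Helper976.ELSS

open Finset Filter Topology Pool.Agent.LinesCross

/-- the `h` largest elements -/
theorem exists_top {C : Type*} [DecidableEq C] (S : Finset C) (g : C → ℝ) :
    ∀ h ≤ S.card, ∃ X ⊆ S, X.card = h ∧ ∀ c ∈ X, ∀ d ∈ S \ X, g d ≤ g c := by
  intro h
  induction h with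
  | zero => intro _; exact ⟨∅, by simp, by simp, by simp⟩
  | succ h ih =>
    intro hh
    obtain ⟨X, h1, h2, h3⟩ := ih (by omega)
    have hne : (S \ X).Nonempty := by
      rw [← Finset.card_pos, Finset.card_sdiff_of_subset h1]; omega
    obtain ⟨d, hd, hmax⟩ := Finset.exists_max_image (S \ X) g hne
    rw [Finset.mem_sdiff] at hd
    refine ⟨insert d X, Finset.insert_subset hd.1 h1, ?_, ?_⟩
    · rw [Finset.card_insert_of_notMem hd.2, h2]
    · intro c hc e he
      rw [Finset.mem_sdiff, Finset.mem_insert, not_or] at he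
      have he' : e ∈ S \ X := Finset.mem_sdiff.2 ⟨he.1, he.2.2⟩
      rw [Finset.mem_insert] at hc
      rcases hc with rfl | hc
      · exact hmax e he'
      · exact h3 c hc e he'

section step

variable {ι : Type*} [DecidableEq ι] {N : ℕ}

/-- `X` is a set of highest elements of `S` in the direction of slope `α` -/
def Cons (x y : ι → ℝ) (S X : Finset (ι × Fin N)) (α : ℝ) : Prop :=
  ∀ c ∈ X, ∀ d ∈ S \ X, y d.1 - α * x d.1 ≤ y c.1 - α * x c.1

theorem isClosed_cons (x y : ι → ℝ) (S X : Finset (ι × Fin N)) :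
    IsClosed {α : ℝ | Cons x y S X α} := by
  have : {α : ℝ | Cons x y S X α} = ⋂ c ∈ X, ⋂ d ∈ S \ X,
      {α : ℝ | y d.1 - α * x d.1 ≤ y c.1 - α * x c.1} := by
    ext α; simp only [Cons, Set.mem_ofPred_eq, Set.mem_iInter]
  rw [this]
  refine isClosed_biInter (fun c _ => isClosed_biInter (fun d _ => ?_))
  exact isClosed_le (by fun_prop) (by fun_prop)

theorem exists_halving (x y : ι → ℝ) (V : Finset ι)
    (hgp : ∀ α β : ℝ, ∀ p ∈ V, ∀ q ∈ V, p ≠ q → y p = α * x p + β → y q = α * x q + β →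
        ∀ r ∈ V, y r = α * x r + β → r = p ∨ r = q)
    (L R : Finset ι) (hV : V = L ∪ R) (hL : ∀ p ∈ L, x p < 0) (hR : ∀ p ∈ R, 0 < x p)
    (h : ℕ) (hhL : h ≤ N * L.card) (hhR : N * R.card ≤ h)
    (U : Finset (ι × Fin N)) (hU : ∀ c ∈ U, c.1 ∈ R) (c0 : ℕ) (hc0 : c0 < U.card) :
    ∃ α β : ℝ, ∃ p ∈ V, ∃ q ∈ V, p ≠ q ∧ y p = α * x p + β ∧ y q = α * x q + β ∧
      ∃ Z ⊆ V ×ˢ (univ : Finset (Fin N)), Z.card = h ∧ (U ∩ Z).card = c0 ∧
        ∀ r ∈ V, r ≠ p → r ≠ q → ∀ i, ((r, i) ∈ Z ↔ α * x r + β < y r) := by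
  classical
  set S : Finset (ι × Fin N) := V ×ˢ (univ : Finset (Fin N)) with hS
  have hmS : ∀ c : ι × Fin N, c ∈ S ↔ c.1 ∈ V := by intro c; simp [hS]
  have hLV : L ⊆ V := by rw [hV]; exact Finset.subset_union_left
  have hRV : R ⊆ V := by rw [hV]; exact Finset.subset_union_right
  have hUS : U ⊆ S := fun c hc => (hmS c).2 (hRV (hU c hc))
  have hScard : S.card = V.card * N := by rw [hS, Finset.card_product]; simp
  have hVcard : L.card ≤ V.card := Finset.card_le_card hLV
  have hhS : h ≤ S.card := by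
    rw [hScard, mul_comm]; exact hhL.trans (Nat.mul_le_mul_left _ hVcard)
  -- bound for slopes
  obtain ⟨M, hM⟩ := Finset.exists_le ((L ×ˢ R).image (fun lr => |(y lr.2 - y lr.1) / (x lr.2 - x lr.1)|))
  have hMb : ∀ l ∈ L, ∀ r ∈ R, |(y r - y l) / (x r - x l)| ≤ M := by
    intro l hl r hr
    exact hM _ (Finset.mem_image.2 ⟨(l, r), Finset.mem_product.2 ⟨hl, hr⟩, rfl⟩)
  have hup : ∀ α, M < α → ∀ l ∈ L, ∀ r ∈ R, y r - α * x r < y l - α * x l := by
    intro α hα l hl r hr
    have h1 := (abs_le.1 (hMb l hl r hr)).2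
    have hpos : 0 < x r - x l := by linarith [hL l hl, hR r hr]
    rw [div_le_iff₀ hpos] at h1
    have h2 : M * (x r - x l) < α * (x r - x l) := mul_lt_mul_of_pos_right hα hpos
    linarith
  have hdn : ∀ α, α < -M → ∀ l ∈ L, ∀ r ∈ R, y l - α * x l < y r - α * x r := by
    intro α hα l hl r hr
    have h1 := (abs_le.1 (hMb l hl r hr)).1
    have hpos : 0 < x r - x l := by linarith [hL l hl, hR r hr]
    rw [le_div_iff₀ hpos] at h1
    have h2 : α * (x r - x l) < -M * (x r - x l) := mul_lt_mul_of_pos_right hα hpos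
    linarith
  set T1 : Finset (Finset (ι × Fin N)) := S.powerset.filter (fun X => X.card = h) with hT1
  set Pl : Set ℝ := ⋃ X ∈ (T1.filter (fun X => (U ∩ X).card ≤ c0)), {α : ℝ | Cons x y S X α} with hPl
  have hPlmem : ∀ α, α ∈ Pl ↔ ∃ X ⊆ S, X.card = h ∧ (U ∩ X).card ≤ c0 ∧ Cons x y S X α := by
    intro α
    simp only [hPl, hT1, Set.mem_iUnion, Finset.mem_filter, Finset.mem_powerset, Set.mem_ofPred_eq,
      exists_prop]
    constructor
    · rintro ⟨X, ⟨⟨h1, h2⟩, h3⟩, h4⟩; exact ⟨X, h1, h2, h3, h4⟩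
    · rintro ⟨X, h1, h2, h3, h4⟩; exact ⟨X, ⟨⟨h1, h2⟩, h3⟩, h4⟩
  have hclosed : IsClosed Pl := by
    rw [hPl]
    exact Set.Finite.isClosed_biUnion (Finset.finite_toSet _) (fun X _ => isClosed_cons x y S X)
  have hne : Pl.Nonempty := by
    refine ⟨M + 1, (hPlmem _).2 ?_⟩
    obtain ⟨X, h1, h2, h3⟩ := exists_top S (fun c => y c.1 - (M + 1) * x c.1) h hhS
    refine ⟨X, h1, h2, ?_, h3⟩
    have : U ∩ X = ∅ := by
      rw [Finset.eq_empty_iff_forall_notMem]
      intro c hc
      rw [Finset.mem_inter] at hc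
      have hcR := hU c hc.1
      have hsub : insert c (L ×ˢ (univ : Finset (Fin N))) ⊆ X := by
        intro d hd
        rw [Finset.mem_insert] at hd
        rcases hd with rfl | hd
        · exact hc.2
        · by_contra hdX
          rw [Finset.mem_product] at hd
          have := h3 c hc.2 d (Finset.mem_sdiff.2 ⟨(hmS d).2 (hLV hd.1), hdX⟩)
          have := hup (M + 1) (by linarith) d.1 hd.1 c.1 hcR
          linarith
      have hcard := Finset.card_le_card hsub
      rw [Finset.card_insert_of_notMem, Finset.card_product] at hcard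
      · simp only [Finset.card_univ, Fintype.card_fin] at hcard
        rw [h2, mul_comm] at hcard
        omega
      · rw [Finset.mem_product]
        rintro ⟨h5, _⟩
        linarith [hL _ h5, hR _ hcR]
    rw [this]; simp
  have hbdd : BddBelow Pl := by
    refine ⟨-M, fun α hα => ?_⟩
    by_contra hlt
    push Not at hlt
    obtain ⟨X, h1, h2, h3, h4⟩ := (hPlmem α).1 hα
    obtain ⟨d, hd, hdX⟩ : ∃ d ∈ U, d ∉ X := by
      by_contra hcon
      push Not at hcon
      have : U ∩ X = U := Finset.inter_eq_left.2 hcon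
      rw [this] at h3; omega
    have hsub : X ⊆ (R ×ˢ (univ : Finset (Fin N))).erase d := by
      intro c hc
      rw [Finset.mem_erase, Finset.mem_product]
      refine ⟨by rintro rfl; exact hdX hc, ?_, Finset.mem_univ _⟩
      have hcV := (hmS c).1 (h1 hc)
      rw [hV, Finset.mem_union] at hcV
      rcases hcV with h5 | h5
      · exfalso
        have := h4 c hc d (Finset.mem_sdiff.2 ⟨hUS hd, hdX⟩)
        have := hdn α hlt c.1 h5 d.1 (hU d hd)
        linarith
      · exact h5
    have hcard := Finset.card_le_card hsub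
    have hdR : d ∈ R ×ˢ (univ : Finset (Fin N)) := Finset.mem_product.2 ⟨hU d hd, Finset.mem_univ _⟩
    have hpos : 0 < (R ×ˢ (univ : Finset (Fin N))).card := Finset.card_pos.2 ⟨d, hdR⟩
    rw [Finset.card_erase_of_mem hdR] at hcard
    rw [Finset.card_product] at hcard hpos
    simp only [Finset.card_univ, Fintype.card_fin] at hcard hpos
    rw [h2, mul_comm] at hcard
    rw [mul_comm] at hpos
    omega
  set α := sInf Pl with hα
  have hαmem : α ∈ Pl := hclosed.csInf_mem hne hbdd
  obtain ⟨Y, hYS, hYc, hYU, hYcons⟩ := (hPlmem α).1 hαmem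
  -- the set `X` coming from the left
  have hfreq : ∃ X ∈ T1, ∃ᶠ a in 𝓝[<] α, Cons x y S X a := by
    by_contra hcon
    push Not at hcon
    have h1 : ∀ᶠ a in 𝓝[<] α, ∀ X ∈ T1, ¬ Cons x y S X a := by
      rw [Filter.eventually_all_finset]
      exact hcon
    obtain ⟨a, ha⟩ := h1.exists
    obtain ⟨X, h2, h3, h4⟩ := exists_top S (fun c => y c.1 - a * x c.1) h hhS
    exact ha X (by rw [hT1, Finset.mem_filter, Finset.mem_powerset]; exact ⟨h2, h3⟩) h4
  obtain ⟨X, hXT, hXf⟩ := hfreq
  rw [hT1, Finset.mem_filter, Finset.mem_powerset] at hXT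
  obtain ⟨hXS, hXc⟩ := hXT
  have hXcons : Cons x y S X α :=
    (isClosed_cons x y S X).mem_of_frequently_of_tendsto hXf
      (tendsto_id.mono_left nhdsWithin_le_nhds)
  obtain ⟨α', hXcons', hα'⟩ := (hXf.and_eventually self_mem_nhdsWithin).exists
  have hα' : α' < α := hα'
  have hnot' : α' ∉ Pl := notMem_of_lt_csInf hα' hbdd
  have hXU : c0 < (U ∩ X).card := by
    by_contra hcon
    push Not at hcon
    exact hnot' ((hPlmem α').2 ⟨X, hXS, hXc, hcon, hXcons'⟩)
  have hXY : X ≠ Y := by rintro rfl; omega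
  obtain ⟨c1, hc1⟩ : (X \ Y).Nonempty := by
    rw [Finset.nonempty_iff_ne_empty]
    intro hemp
    rw [Finset.sdiff_eq_empty_iff_subset] at hemp
    exact hXY (Finset.eq_of_subset_of_card_le hemp (by rw [hXc, hYc]))
  obtain ⟨d1, hd1⟩ : (Y \ X).Nonempty := by
    rw [Finset.nonempty_iff_ne_empty]
    intro hemp
    rw [Finset.sdiff_eq_empty_iff_subset] at hemp
    exact hXY (Finset.eq_of_subset_of_card_le hemp (by rw [hXc, hYc])).symm
  rw [Finset.mem_sdiff] at hc1 hd1
  have hc1S : c1 ∈ S := hXS hc1.1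
  have hd1S : d1 ∈ S := hYS hd1.1
  set κ : ι → ℝ := fun r => y r - α * x r with hκ
  set β : ℝ := κ c1.1 with hβ
  have hdβ : κ d1.1 = β := by
    apply le_antisymm
    · exact hXcons c1 hc1.1 d1 (Finset.mem_sdiff.2 ⟨hd1S, hd1.2⟩)
    · exact hYcons d1 hd1.1 c1 (Finset.mem_sdiff.2 ⟨hc1S, hc1.2⟩)
  have F1X : ∀ c ∈ S, β < κ c.1 → c ∈ X := by
    intro c hc hlt
    by_contra hcX
    have : κ c.1 ≤ κ c1.1 := hXcons c1 hc1.1 c (Finset.mem_sdiff.2 ⟨hc, hcX⟩)
    linarith
  have F1Y : ∀ c ∈ S, β < κ c.1 → c ∈ Y := by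
    intro c hc hlt
    by_contra hcY
    have : κ c.1 ≤ κ d1.1 := hYcons d1 hd1.1 c (Finset.mem_sdiff.2 ⟨hc, hcY⟩)
    linarith
  have F2X : ∀ c ∈ X, β ≤ κ c.1 := by
    intro c hc
    have : κ d1.1 ≤ κ c.1 := hXcons c hc d1 (Finset.mem_sdiff.2 ⟨hd1S, hd1.2⟩)
    linarith
  have F2Y : ∀ c ∈ Y, β ≤ κ c.1 := by
    intro c hc
    exact hYcons c hc c1 (Finset.mem_sdiff.2 ⟨hc1S, hc1.2⟩)
  -- two points on the line
  obtain ⟨q, hqV, hqp, hqβ⟩ : ∃ q ∈ V, q ≠ c1.1 ∧ κ q = β := by
    by_contra hcon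
    push Not at hcon
    have honly : ∀ r ∈ V, κ r = β → r = c1.1 := by
      intro r hr h5
      by_contra h6
      exact hcon r hr h6 h5
    have hd1p : d1.1 = c1.1 := honly _ ((hmS d1).1 hd1S) hdβ
    apply hnot'
    refine (hPlmem α').2 ⟨Y, hYS, hYc, hYU, ?_⟩
    have hY1 : ∀ e ∈ Y, y c1.1 - α' * x c1.1 ≤ y e.1 - α' * x e.1 := by
      intro e he
      by_cases heX : e ∈ X
      · have := hXcons' e heX d1 (Finset.mem_sdiff.2 ⟨hd1S, hd1.2⟩)
        rw [hd1p] at this
        exact this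
      · have h5 : κ e.1 ≤ κ c1.1 := hXcons c1 hc1.1 e (Finset.mem_sdiff.2 ⟨hYS he, heX⟩)
        have h6 := honly e.1 ((hmS e).1 (hYS he)) (le_antisymm h5 (F2Y e he))
        rw [h6]
    have hY2 : ∀ g ∈ S \ Y, y g.1 - α' * x g.1 ≤ y c1.1 - α' * x c1.1 := by
      intro g hg
      rw [Finset.mem_sdiff] at hg
      by_cases hgX : g ∈ X
      · have h5 : κ g.1 ≤ κ d1.1 := hYcons d1 hd1.1 g (Finset.mem_sdiff.2 hg)
        have h6 := honly g.1 ((hmS g).1 hg.1) (le_antisymm (by rw [← hdβ]; exact h5) (F2X g hgX))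
        rw [h6]
      · exact hXcons' c1 hc1.1 g (Finset.mem_sdiff.2 ⟨hg.1, hgX⟩)
    intro e he g hg
    exact (hY2 g hg).trans (hY1 e he)
  have hpV : c1.1 ∈ V := (hmS c1).1 hc1S
  have hpl : y c1.1 = α * x c1.1 + β := by rw [hβ, hκ]; ring
  have hql : y q = α * x q + β := by rw [← hqβ, hκ]; ring
  have hgp' := hgp α β c1.1 hpV q hqV (Ne.symm hqp) hpl hql
  -- the sets
  set St : Finset (ι × Fin N) := S.filter (fun c => β < κ c.1) with hSt
  set T : Finset (ι × Fin N) := S.filter (fun c => κ c.1 = β) with hT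
  have hStX : St ⊆ X := fun c hc => by rw [hSt, Finset.mem_filter] at hc; exact F1X c hc.1 hc.2
  have hStY : St ⊆ Y := fun c hc => by rw [hSt, Finset.mem_filter] at hc; exact F1Y c hc.1 hc.2
  have hXsub : ∀ c ∈ X, c ∈ St ∨ c ∈ T := by
    intro c hc
    rcases lt_or_eq_of_le (F2X c hc) with h5 | h5
    · left; rw [hSt, Finset.mem_filter]; exact ⟨hXS hc, h5⟩
    · right; rw [hT, Finset.mem_filter]; exact ⟨hXS hc, h5.symm⟩
  have hYsub : ∀ c ∈ Y, c ∈ St ∨ c ∈ T := by
    intro c hc
    rcases lt_or_eq_of_le (F2Y c hc) with h5 | h5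
    · left; rw [hSt, Finset.mem_filter]; exact ⟨hYS hc, h5⟩
    · right; rw [hT, Finset.mem_filter]; exact ⟨hYS hc, h5.symm⟩
  have hdST : Disjoint St T := by
    rw [Finset.disjoint_left]
    intro c h5 h6
    rw [hSt, Finset.mem_filter] at h5
    rw [hT, Finset.mem_filter] at h6
    linarith [h5.2, h6.2]
  -- cardinalities
  have key : ∀ W : Finset (ι × Fin N), St ⊆ W → (∀ c ∈ W, c ∈ St ∨ c ∈ T) → W.card = h →
      h = St.card + ((W ∩ T) ∩ U).card + ((W ∩ T) \ U).card ∧
      (U ∩ W).card = (St ∩ U).card + ((W ∩ T) ∩ U).card := by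
    intro W h5 h6 h7
    constructor
    · have e1 : W = St ∪ (W ∩ T) := by
        ext c
        rw [Finset.mem_union, Finset.mem_inter]
        constructor
        · intro hc
          rcases h6 c hc with h8 | h8
          · exact Or.inl h8
          · exact Or.inr ⟨hc, h8⟩
        · rintro (hc | hc)
          · exact h5 hc
          · exact hc.1
      have e2 : W.card = St.card + (W ∩ T).card := by
        conv_lhs => rw [e1]
        rw [Finset.card_union_of_disjoint]
        exact Finset.disjoint_of_subset_right Finset.inter_subset_right hdST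
      have e3 := Finset.card_inter_add_card_sdiff (W ∩ T) U
      omega
    · have e1 : U ∩ W = (St ∩ U) ∪ ((W ∩ T) ∩ U) := by
        ext c
        simp only [Finset.mem_union, Finset.mem_inter]
        constructor
        · rintro ⟨hc, hc'⟩
          rcases h6 c hc' with h8 | h8
          · exact Or.inl ⟨h8, hc⟩
          · exact Or.inr ⟨⟨hc', h8⟩, hc⟩
        · rintro (⟨hc, hc'⟩ | ⟨⟨hc, _⟩, hc'⟩)
          · exact ⟨hc', h5 hc⟩
          · exact ⟨hc', hc⟩
      rw [e1, Finset.card_union_of_disjoint]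
      refine Finset.disjoint_of_subset_left Finset.inter_subset_left
        (Finset.disjoint_of_subset_right ?_ hdST)
      exact (Finset.inter_subset_left).trans Finset.inter_subset_right
  obtain ⟨kX1, kX2⟩ := key X hStX hXsub hXc
  obtain ⟨kY1, kY2⟩ := key Y hStY hYsub hYc
  have bX : ((X ∩ T) ∩ U).card ≤ (T ∩ U).card :=
    Finset.card_le_card (Finset.inter_subset_inter_right Finset.inter_subset_right)
  have bY : ((Y ∩ T) \ U).card ≤ (T \ U).card :=
    Finset.card_le_card (Finset.sdiff_subset_sdiff Finset.inter_subset_right (Finset.Subset.refl _))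
  obtain ⟨ZU, hZU, hZUc⟩ := Finset.exists_subset_card_eq (s := T ∩ U) (n := c0 - (St ∩ U).card)
    (by omega)
  obtain ⟨ZN, hZN, hZNc⟩ := Finset.exists_subset_card_eq (s := T \ U)
    (n := h - St.card - (c0 - (St ∩ U).card)) (by omega)
  have hdZ : Disjoint ZU ZN := by
    rw [Finset.disjoint_left]
    intro c h5 h6
    have h5 := hZU h5
    have h6 := hZN h6
    rw [Finset.mem_inter] at h5
    rw [Finset.mem_sdiff] at h6
    exact h6.2 h5.2
  have hZT : ZU ∪ ZN ⊆ T := by
    apply Finset.union_subset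
    · exact hZU.trans Finset.inter_subset_left
    · exact hZN.trans Finset.sdiff_subset
  refine ⟨α, β, c1.1, hpV, q, hqV, Ne.symm hqp, hpl, hql, St ∪ (ZU ∪ ZN), ?_, ?_, ?_, ?_⟩
  · apply Finset.union_subset
    · exact Finset.filter_subset _ _
    · exact hZT.trans (Finset.filter_subset _ _)
  · rw [Finset.card_union_of_disjoint (Finset.disjoint_of_subset_right hZT hdST),
      Finset.card_union_of_disjoint hdZ, hZUc, hZNc]
    omega
  · have e1 : U ∩ (St ∪ (ZU ∪ ZN)) = (St ∩ U) ∪ ZU := by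
      ext c
      simp only [Finset.mem_union, Finset.mem_inter]
      constructor
      · rintro ⟨hc, h5 | h5 | h5⟩
        · exact Or.inl ⟨h5, hc⟩
        · exact Or.inr h5
        · exact absurd hc (Finset.mem_sdiff.1 (hZN h5)).2
      · rintro (⟨h5, h6⟩ | h5)
        · exact ⟨h6, Or.inl h5⟩
        · exact ⟨(Finset.mem_inter.1 (hZU h5)).2, Or.inr (Or.inl h5)⟩
    rw [e1, Finset.card_union_of_disjoint, hZUc]
    · omega
    · exact Finset.disjoint_of_subset_left Finset.inter_subset_left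
        (Finset.disjoint_of_subset_right (Finset.subset_union_left.trans hZT) hdST)
  · intro r hr hrp hrq i
    have hnl : κ r ≠ β := by
      intro h5
      rcases hgp' r hr (by rw [← h5, hκ]; ring) with h6 | h6
      · exact hrp h6
      · exact hrq h6
    have hriS : (r, i) ∈ S := (hmS _).2 hr
    constructor
    · intro h5
      rw [Finset.mem_union] at h5
      rcases h5 with h5 | h5
      · rw [hSt, Finset.mem_filter] at h5
        have := h5.2
        simp only [hκ] at this
        linarith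
      · have := hZT h5
        rw [hT, Finset.mem_filter] at this
        exact absurd this.2 hnl
    · intro h5
      rw [Finset.mem_union]
      left
      rw [hSt, Finset.mem_filter]
      refine ⟨hriS, ?_⟩
      simp only [hκ]
      linarith

end step

end Pool.Agent.Helper976.ELSS
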