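import Mathlib
import Pool.Agent.Helper976.ELSS.Halve
import Pool.Agent.LinesCross.Comb

set_option linter.unusedSectionVars false
set_option linter.unusedVariables false

/-!
# The bound coming from `m` halving lines
-/

namespace Pool.Agent.Helper976.ELSS

open Finset Pool.Agent.LinesCross

section comb

variable {C : Type*} [DecidableEq C]

/-- successive halving lines, each cutting `s` points off the current set -/
def HPeel (S : Finset C) (s h : ℕ) : List (C → Bool) → Finset C → Prop
  | [], U => U.card = s
  | f :: fs, U => (U.filter (fun c => f c = false)).card = s ∧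
      (S.filter (fun c => f c = true)).card = h ∧ HPeel S s h fs (U.filter (fun c => f c = true))

theorem hpeel_pairs (S : Finset C) (s h : ℕ) (fs : List (C → Bool)) :
    ∀ (U V' : Finset C), HPeel S s h fs U →
      ∑ u ∈ U, (V'.filter (fun v => ∀ f ∈ fs, f v ≠ f u)).card ≤ s * V'.card := by
  induction fs with
  | nil =>
    intro U V' hU
    have hU' : U.card = s := hU
    simp [hU']
  | cons f fs ih =>
    intro U V' hU
    obtain ⟨h1, h2, h3⟩ := hU
    have a1 : ∑ u ∈ U.filter (fun c => f c = true),
        (V'.filter (fun v => ∀ g ∈ f :: fs, g v ≠ g u)).card ≤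
        s * (V'.filter (fun v => f v = false)).card := by
      refine le_trans (Finset.sum_le_sum fun u hu => Finset.card_le_card
        (t := (V'.filter (fun v => f v = false)).filter (fun v => ∀ g ∈ fs, g v ≠ g u)) ?_) (ih _ _ h3)
      intro v hv
      rw [Finset.mem_filter] at hv hu
      rw [Finset.mem_filter, Finset.mem_filter]
      refine ⟨⟨hv.1, ?_⟩, fun g hg => hv.2 g (List.mem_cons_of_mem _ hg)⟩
      have := hv.2 f (List.mem_cons_self ..)
      rw [hu.2] at this
      simpa using this
    have a2 : ∑ u ∈ U.filter (fun c => f c = false),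
        (V'.filter (fun v => ∀ g ∈ f :: fs, g v ≠ g u)).card ≤
        s * (V'.filter (fun v => f v = true)).card := by
      calc _ ≤ ∑ u ∈ U.filter (fun c => f c = false), (V'.filter (fun v => f v = true)).card := by
            apply Finset.sum_le_sum
            intro u hu
            apply Finset.card_le_card
            intro v hv
            rw [Finset.mem_filter] at hv hu ⊢
            refine ⟨hv.1, ?_⟩
            have := hv.2 f (List.mem_cons_self ..)
            rw [hu.2] at this
            simpa using this
        _ = s * (V'.filter (fun v => f v = true)).card := by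
            rw [Finset.sum_const, h1, smul_eq_mul]
    have a3 : (V'.filter (fun v => f v = true)).card + (V'.filter (fun v => f v = false)).card =
        V'.card := by
      rw [← Finset.card_union_of_disjoint (filter_disj_bool f V'), filter_union_bool]
    have a4 : ∑ u ∈ U, (V'.filter (fun v => ∀ g ∈ f :: fs, g v ≠ g u)).card =
        ∑ u ∈ U.filter (fun c => f c = true), (V'.filter (fun v => ∀ g ∈ f :: fs, g v ≠ g u)).card +
        ∑ u ∈ U.filter (fun c => f c = false),
          (V'.filter (fun v => ∀ g ∈ f :: fs, g v ≠ g u)).card := by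
      rw [← Finset.sum_union (filter_disj_bool f U), filter_union_bool]
    rw [a4, ← a3]
    nlinarith

theorem pt1 (b : ℕ) (c d : C) (F : List (C → Bool)) :
    (F.map (fun f => (if f c = true ∧ f d = false then b else 0) +
      (if f d = true ∧ f c = false then b else 0))).sum ≤ F.length * b := by
  induction F with
  | nil => simp
  | cons f F ih =>
    rw [List.map_cons, List.sum_cons, List.length_cons, Nat.add_mul, one_mul]
    have : (if f c = true ∧ f d = false then b else 0) +
      (if f d = true ∧ f c = false then b else 0) ≤ b := by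
      cases f c <;> cases f d <;> simp
    omega

theorem pt2 (b : ℕ) (c d : C) (F : List (C → Bool)) (h : ∃ f ∈ F, f c = f d) :
    (F.map (fun f => (if f c = true ∧ f d = false then b else 0) +
      (if f d = true ∧ f c = false then b else 0))).sum + b ≤ F.length * b := by
  induction F with
  | nil => simp at h
  | cons f F ih =>
    rw [List.map_cons, List.sum_cons, List.length_cons, Nat.add_mul, one_mul]
    by_cases hf : f c = f d
    · have h0 : (if f c = true ∧ f d = false then b else 0) +
        (if f d = true ∧ f c = false then b else 0) = 0 := by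
        rw [hf]; cases f d <;> simp
      have := pt1 b c d F
      omega
    · have h1 : (if f c = true ∧ f d = false then b else 0) +
        (if f d = true ∧ f c = false then b else 0) ≤ b := by
        cases f c <;> cases f d <;> simp
      obtain ⟨g, hg, hg2⟩ := h
      rw [List.mem_cons] at hg
      rcases hg with rfl | hg
      · exact absurd hg2 hf
      · have := ih ⟨g, hg, hg2⟩
        omega

open Classical in
theorem sep_sum (B : C → C → ℕ) (hsym : ∀ c d, B c d = B d c) (F : List (C → Bool))
    (S : Finset C) (k : ℕ) (hk : F.length = k + 1) :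
    2 * (F.map (fun f => Cr B f S S)).sum ≤ k * W B S S +
      ∑ c ∈ S, ∑ d ∈ S, (if ∀ f ∈ F, f c ≠ f d then B c d else 0) := by
  have e1 : ∀ f : C → Bool, Cr B f S S + Cr B f S S = ∑ c ∈ S, ∑ d ∈ S,
      ((if f c = true ∧ f d = false then B c d else 0) +
      (if f d = true ∧ f c = false then B c d else 0)) := by
    intro f
    simp only [Finset.sum_add_distrib]
    congr 1
    unfold Cr
    rw [Finset.sum_comm]
    apply Finset.sum_congr rfl; intro c _; apply Finset.sum_congr rfl; intro d _
    rw [hsym d c]
  have e2 : 2 * (F.map (fun f => Cr B f S S)).sum = (F.map (fun f => Cr B f S S + Cr B f S S)).sum := by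
    rw [list_sum_add]; ring
  rw [e2]
  simp only [e1]
  have e3 : (F.map (fun f => ∑ c ∈ S, ∑ d ∈ S,
      ((if f c = true ∧ f d = false then B c d else 0) +
      (if f d = true ∧ f c = false then B c d else 0)))).sum =
      ∑ c ∈ S, ∑ d ∈ S, (F.map (fun f => ((if f c = true ∧ f d = false then B c d else 0) +
      (if f d = true ∧ f c = false then B c d else 0)))).sum := by
    rw [← sum_map_comm F (fun f c => ∑ d ∈ S, ((if f c = true ∧ f d = false then B c d else 0) +
      (if f d = true ∧ f c = false then B c d else 0)))]
    apply Finset.sum_congr rfl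
    intro c _
    rw [← sum_map_comm F (fun f d => ((if f c = true ∧ f d = false then B c d else 0) +
      (if f d = true ∧ f c = false then B c d else 0)))]
  rw [e3]
  unfold W
  rw [Finset.mul_sum, ← Finset.sum_add_distrib]
  apply Finset.sum_le_sum; intro c _
  rw [Finset.mul_sum, ← Finset.sum_add_distrib]
  apply Finset.sum_le_sum; intro d _
  by_cases hall : ∀ f ∈ F, f c ≠ f d
  · rw [if_pos hall]
    have := pt1 (B c d) c d F
    rw [hk, Nat.add_mul, one_mul] at this
    exact this
  · rw [if_neg hall, add_zero]
    push Not at hall
    have := pt2 (B c d) c d F hall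
    rw [hk, Nat.add_mul, one_mul] at this
    omega

theorem Cr_one (f : C → Bool) (S : Finset C) :
    Cr (fun _ _ => 1) f S S = (S.filter (fun c => f c = true)).card *
      (S.filter (fun c => f c = false)).card := by
  rw [Cr_eq]
  unfold W
  simp

/-- the combinatorial heart of the second family of bounds -/
theorem halve_bound (A : C → C → ℕ) (hsym : ∀ c d, A c d = A d c) (h0 : ∀ c, A c c = 0)
    (h1 : ∀ c d, A c d ≤ 1) (s h : ℕ) (f0 : C → Bool) (fs : List (C → Bool)) (L R : Finset C)
    (hf0R : ∀ c ∈ R, f0 c = true) (hf0L : ∀ c ∈ L, f0 c = false)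
    (hP : HPeel (L ∪ R) s h fs R) :
    2 * (L.card * R.card + fs.length * (h * ((L ∪ R).card - h))) + fs.length * (L ∪ R).card +
      fs.length * W A (L ∪ R) (L ∪ R) ≤
      2 * (Cr A f0 (L ∪ R) (L ∪ R) + (fs.map (fun f => Cr A f (L ∪ R) (L ∪ R))).sum) +
      fs.length * ((L ∪ R).card * (L ∪ R).card) + 2 * (s * L.card) := by
  classical
  have hdisj : Disjoint L R := by
    rw [Finset.disjoint_left]
    intro c hc hc'
    have := hf0L c hc
    rw [hf0R c hc'] at this
    exact absurd this (by simp)
  set S := L ∪ R with hS
  set B : C → C → ℕ := fun c d => if c = d then 0 else 1 - A c d with hB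
  have hBsym : ∀ c d, B c d = B d c := by
    intro c d; simp only [hB, hsym d c]
    by_cases hcd : c = d
    · rw [if_pos hcd, if_pos hcd.symm]
    · rw [if_neg hcd, if_neg (Ne.symm hcd)]
  have hAB : ∀ c d, c ≠ d → A c d + B c d = 1 := by
    intro c d hcd
    simp only [hB, if_neg hcd]
    have := h1 c d; omega
  have hBle : ∀ c d, B c d ≤ 1 := by
    intro c d; simp only [hB]; split_ifs <;> omega
  -- Cr of the complete graph
  have hcr : ∀ f : C → Bool, (S.filter (fun c => f c = true)).card *
      (S.filter (fun c => f c = false)).card = Cr A f S S + Cr B f S S := by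
    intro f
    rw [← Cr_one f S]
    unfold Cr
    rw [← Finset.sum_add_distrib]
    apply Finset.sum_congr rfl; intro c _
    rw [← Finset.sum_add_distrib]
    apply Finset.sum_congr rfl; intro d _
    by_cases hfd : f c = true ∧ f d = false
    · rw [if_pos hfd, if_pos hfd, if_pos hfd, hAB]
      rintro rfl
      rw [hfd.1] at hfd
      exact absurd hfd.2 (by simp)
    · rw [if_neg hfd, if_neg hfd, if_neg hfd]
  have hWB : W A S S + W B S S + S.card = S.card * S.card := by
    unfold W
    rw [← Finset.sum_add_distrib]
    have : ∑ c ∈ S, (∑ d ∈ S, A c d + ∑ d ∈ S, B c d + 1) = ∑ c ∈ S, S.card := by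
      apply Finset.sum_congr rfl
      intro c hc
      rw [← Finset.sum_add_distrib, ← Finset.add_sum_erase S _ hc]
      have e1 : ∑ d ∈ S.erase c, (A c d + B c d) = (S.erase c).card := by
        rw [Finset.card_eq_sum_ones]
        apply Finset.sum_congr rfl
        intro d hd
        exact hAB c d (Ne.symm (Finset.ne_of_mem_erase hd))
      have e2 : B c c = 0 := by simp [hB]
      rw [e1, h0, e2, Finset.card_erase_of_mem hc]
      have : 0 < S.card := Finset.card_pos.2 ⟨c, hc⟩
      omega
    rw [Finset.sum_add_distrib, Finset.sum_const, Finset.sum_const] at this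
    simpa using this
  have hsep := sep_sum B hBsym (f0 :: fs) S fs.length (by simp)
  -- pairs separated by all the lines
  have hall : ∑ c ∈ S, ∑ d ∈ S, (if ∀ f ∈ f0 :: fs, f c ≠ f d then B c d else 0) ≤
      2 * (s * L.card) := by
    have hpt : ∀ c d, (if ∀ f ∈ f0 :: fs, f c ≠ f d then B c d else 0) ≤
        (if ∀ f ∈ f0 :: fs, f c ≠ f d then 1 else 0) := by
      intro c d; split_ifs
      · exact hBle c d
      · exact le_refl _
    refine (Finset.sum_le_sum fun c _ => Finset.sum_le_sum fun d _ => hpt c d).trans ?_
    rw [hS, Finset.sum_union hdisj]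
    simp only [Finset.sum_union hdisj]
    rw [Finset.sum_add_distrib, Finset.sum_add_distrib]
    have eLL : ∑ c ∈ L, ∑ d ∈ L, (if ∀ f ∈ f0 :: fs, f c ≠ f d then 1 else 0) = 0 := by
      apply Finset.sum_eq_zero; intro c hc; apply Finset.sum_eq_zero; intro d hd
      rw [if_neg]
      intro hcon
      exact hcon f0 (List.mem_cons_self ..) (by rw [hf0L c hc, hf0L d hd])
    have eRR : ∑ c ∈ R, ∑ d ∈ R, (if ∀ f ∈ f0 :: fs, f c ≠ f d then 1 else 0) = 0 := by
      apply Finset.sum_eq_zero; intro c hc; apply Finset.sum_eq_zero; intro d hd
      rw [if_neg]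
      intro hcon
      exact hcon f0 (List.mem_cons_self ..) (by rw [hf0R c hc, hf0R d hd])
    have eRL : ∑ c ∈ R, ∑ d ∈ L, (if ∀ f ∈ f0 :: fs, f c ≠ f d then 1 else 0) ≤ s * L.card := by
      refine le_trans (Finset.sum_le_sum fun c _ => ?_) (hpeel_pairs S s h fs R L hP)
      rw [Finset.card_filter]
      apply Finset.sum_le_sum
      intro d _
      split_ifs with g1 g2
      · exact le_refl _
      · exfalso
        exact g2 (fun f hf => (g1 f (List.mem_cons_of_mem _ hf)).symm)
      · exact Nat.zero_le _
      · exact le_refl _
    have eLR : ∑ c ∈ L, ∑ d ∈ R, (if ∀ f ∈ f0 :: fs, f c ≠ f d then 1 else 0) =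
        ∑ c ∈ R, ∑ d ∈ L, (if ∀ f ∈ f0 :: fs, f c ≠ f d then 1 else 0) := by
      rw [Finset.sum_comm]
      apply Finset.sum_congr rfl; intro c _; apply Finset.sum_congr rfl; intro d _
      congr 1
      apply propext
      constructor
      · intro hh f hf; exact (hh f hf).symm
      · intro hh f hf; exact (hh f hf).symm
    omega
  -- the complete graph
  have hf0t : S.filter (fun c => f0 c = true) = R := by
    ext c; rw [Finset.mem_filter, hS, Finset.mem_union]
    constructor
    · rintro ⟨h5 | h5, h6⟩
      · rw [hf0L c h5] at h6; exact absurd h6 (by simp)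
      · exact h5
    · intro h5; exact ⟨Or.inr h5, hf0R c h5⟩
  have hf0f : S.filter (fun c => f0 c = false) = L := by
    ext c; rw [Finset.mem_filter, hS, Finset.mem_union]
    constructor
    · rintro ⟨h5 | h5, h6⟩
      · exact h5
      · rw [hf0R c h5] at h6; exact absurd h6 (by simp)
    · intro h5; exact ⟨Or.inl h5, hf0L c h5⟩
  have hfsc : ∀ f ∈ fs, (S.filter (fun c => f c = true)).card = h := by
    clear hsep hall
    have : ∀ (fs : List (C → Bool)) (U : Finset C), HPeel S s h fs U →
        ∀ f ∈ fs, (S.filter (fun c => f c = true)).card = h := by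
      intro fs
      induction fs with
      | nil => intro U _ f hf; simp at hf
      | cons g gs ih =>
        intro U hU f hf
        obtain ⟨g1, g2, g3⟩ := hU
        rw [List.mem_cons] at hf
        rcases hf with rfl | hf
        · exact g2
        · exact ih _ g3 f hf
    exact this fs R hP
  have hsumfs : (fs.map (fun f => Cr A f S S)).sum + (fs.map (fun f => Cr B f S S)).sum =
      fs.length * (h * (S.card - h)) := by
    rw [← list_sum_add]
    have : ∀ f ∈ fs, Cr A f S S + Cr B f S S = h * (S.card - h) := by
      intro f hf
      rw [← hcr f, hfsc f hf]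
      congr 1
      have : (S.filter (fun c => f c = true)).card + (S.filter (fun c => f c = false)).card =
          S.card := by
        rw [← Finset.card_union_of_disjoint (filter_disj_bool f S), filter_union_bool]
      rw [hfsc f hf] at this
      omega
    rw [List.map_congr_left this]
    simp
  have hf0c := hcr f0
  rw [hf0t, hf0f] at hf0c
  rw [List.map_cons, List.sum_cons] at hsep
  have e7 : fs.length * (W A S S + W B S S + S.card) = fs.length * (S.card * S.card) := by rw [hWB]
  have e8 : R.card * L.card = L.card * R.card := mul_comm _ _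
  have e9 : fs.length * (W A S S + W B S S + S.card) = fs.length * W A S S +
      fs.length * W B S S + fs.length * S.card := by ring
  omega

end comb

end Pool.Agent.Helper976.ELSS
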