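import Mathlib
import Pool.Agent.Helper976.ELSS.Core2
import Pool.Agent.LinesCross.Plane

set_option linter.unusedSectionVars false
set_option linter.unusedVariables false

/-!
# The second family of bounds in the plane
-/

namespace Pool.Agent.Helper976.ELSS

open Finset Pool.Agent.LinesCross

section core

variable {ι : Type*} [DecidableEq ι] (N : ℕ) (A : ι → ι → ℕ)

theorem hpeel_exists (x y : ι → ℝ) (V : Finset ι) (K : ℕ) (h0 : ∀ c, A c c = 0)
    (hK : ∀ α β : ℝ, (∀ r ∈ V, y r ≠ α * x r + β) →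
      Cr A (fun r => decide (α * x r + β < y r)) V V ≤ K)
    (hgp : ∀ α β : ℝ, ∀ p ∈ V, ∀ q ∈ V, p ≠ q → y p = α * x p + β → y q = α * x q + β →
        ∀ r ∈ V, y r = α * x r + β → r = p ∨ r = q)
    (hx : ∀ p ∈ V, ∀ q ∈ V, x p = x q → p = q)
    (L₀ R₀ : Finset ι) (hV : V = L₀ ∪ R₀) (hL : ∀ p ∈ L₀, x p < 0) (hR : ∀ p ∈ R₀, 0 < x p)
    (s h : ℕ) (hs : 1 ≤ s) (hhL : h ≤ N * L₀.card) (hhR : N * R₀.card ≤ h) (k : ℕ) :
    ∀ U : Finset (ι × Fin N), (∀ c ∈ U, c.1 ∈ R₀) → U.card = (k + 1) * s →
      ∃ fs : List (ι × Fin N → Bool), fs.length = k ∧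
        (∀ f ∈ fs, 2 * Cr (Bl N A) f (V ×ˢ (univ : Finset (Fin N)))
          (V ×ˢ (univ : Finset (Fin N))) ≤ 2 * (N * N * K) + N * N) ∧
        HPeel (V ×ˢ (univ : Finset (Fin N))) s h fs U := by
  classical
  induction k with
  | zero =>
    intro U _ hUc
    refine ⟨[], rfl, by simp, ?_⟩
    show U.card = s
    rw [hUc]; ring
  | succ k ih =>
    intro U hU hUc
    have hc0 : (k + 1) * s < U.card := by
      rw [hUc]
      have : (k + 1 + 1) * s = (k + 1) * s + s := by ring
      omega
    obtain ⟨α, β, p, hp, q, hq, hpq, hpl, hql, Z, hZS, hZc, hZU, hZ⟩ :=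
      exists_halving x y V hgp L₀ R₀ hV hL hR h hhL hhR U hU ((k + 1) * s) hc0
    set f : ι × Fin N → Bool := fun c => decide (c ∈ Z) with hf
    have e1 : U.filter (fun c => f c = true) = U ∩ Z := by
      ext c; simp [hf]
    have e2 : (V ×ˢ (univ : Finset (Fin N))).filter (fun c => f c = true) = Z := by
      ext c
      simp only [hf, Finset.mem_filter, decide_eq_true_eq]
      exact ⟨fun h => h.2, fun h => ⟨hZS h, h⟩⟩
    have e3 : (U.filter (fun c => f c = true)).card + (U.filter (fun c => f c = false)).card =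
        U.card := by
      rw [← Finset.card_union_of_disjoint (filter_disj_bool f U), filter_union_bool]
    obtain ⟨fs, g1, g2, g3⟩ := ih (U.filter (fun c => f c = true))
      (fun c hc => hU c (Finset.mem_filter.1 hc).1) (by rw [e1, hZU])
    refine ⟨f :: fs, by simp [g1], ?_, ?_, by rw [e2, hZc], g3⟩
    · intro g hg
      rw [List.mem_cons] at hg
      rcases hg with rfl | hg
      · refine adm_of_pivot N A x y V K h0 hK α β p q hp hq hpq ?_ hpl hql
          (hgp α β p hp q hq hpq hpl hql) _ ?_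
        · intro hxx; exact hpq (hx p hp q hq hxx)
        · intro r hr h5 h6 i
          rw [hf]
          simp only
          rw [decide_eq_decide]
          exact hZ r hr h5 h6 i
      · exact g2 g hg
    · have e9 : (k + 1 + 1) * s = (k + 1) * s + s := by ring
      rw [e1, hZU, hUc, e9] at e3
      omega

theorem W_Bl_VV (h0 : ∀ c, A c c = 0) (V : Finset ι) :
    W (Bl N A) (V ×ˢ (univ : Finset (Fin N))) (V ×ˢ (univ : Finset (Fin N))) + N * V.card =
      N * N * W A V V + N * N * V.card := by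
  unfold W
  have e1 : ∀ u v : ι, ∑ i : Fin N, ∑ j : Fin N, Bl N A (u, i) (v, j) +
      (if u = v then N else 0) = N * N * A u v + (if u = v then N * N else 0) := by
    intro u v
    by_cases huv : u = v
    · subst huv
      rw [if_pos rfl, if_pos rfl, h0, mul_zero, zero_add]
      have : ∀ i : Fin N, ∑ j : Fin N, Bl N A (u, i) (u, j) = N - 1 := by
        intro i
        have e2 : ∀ j : Fin N, Bl N A (u, i) (u, j) = if i = j then 0 else 1 := by
          intro j; simp [Bl]
        simp only [e2]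
        rw [Finset.sum_ite, Finset.sum_const_zero, zero_add, Finset.sum_const, smul_eq_mul, mul_one]
        have : univ.filter (fun j : Fin N => ¬ i = j) = univ.erase i := by
          ext j; simp [eq_comm]
        rw [this, Finset.card_erase_of_mem (Finset.mem_univ _)]; simp
      simp only [this, Finset.sum_const, Finset.card_univ, Fintype.card_fin, smul_eq_mul]
      rcases Nat.eq_zero_or_pos N with h | h
      · subst h; simp
      · obtain ⟨N', rfl⟩ : ∃ N', N = N' + 1 := ⟨N - 1, by omega⟩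
        simp only [Nat.add_sub_cancel]; ring
    · rw [if_neg huv, if_neg huv]
      simp [Bl, huv, mul_assoc]
  have e2 : ∑ c ∈ V ×ˢ (univ : Finset (Fin N)), ∑ d ∈ V ×ˢ (univ : Finset (Fin N)),
      Bl N A c d = ∑ u ∈ V, ∑ v ∈ V, ∑ i : Fin N, ∑ j : Fin N, Bl N A (u, i) (v, j) := by
    rw [Finset.sum_product]
    apply Finset.sum_congr rfl; intro u _
    simp only [Finset.sum_product]
    rw [Finset.sum_comm]
  have e3 : ∑ u ∈ V, ∑ v ∈ V, (if u = v then N else 0) = N * V.card := by
    rw [Finset.sum_congr rfl (fun u hu => by rw [Finset.sum_ite_eq, if_pos hu])]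
    simp [mul_comm]
  have e4 : ∑ u ∈ V, ∑ v ∈ V, (if u = v then N * N else 0) = N * N * V.card := by
    rw [Finset.sum_congr rfl (fun u hu => by rw [Finset.sum_ite_eq, if_pos hu])]
    simp [mul_comm]
  rw [e2, ← e3, ← e4, Finset.mul_sum, ← Finset.sum_add_distrib, ← Finset.sum_add_distrib]
  apply Finset.sum_congr rfl; intro u _
  rw [Finset.mul_sum, ← Finset.sum_add_distrib, ← Finset.sum_add_distrib]
  apply Finset.sum_congr rfl; intro v _
  exact e1 u v

theorem core_bound2 (x y : ι → ℝ) (V : Finset ι) (K : ℕ)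
    (hsym : ∀ c d, A c d = A d c) (h0 : ∀ c, A c c = 0) (h1 : ∀ c d, A c d ≤ 1)
    (hK : ∀ α β : ℝ, (∀ r ∈ V, y r ≠ α * x r + β) →
      Cr A (fun r => decide (α * x r + β < y r)) V V ≤ K)
    (hgp : ∀ α β : ℝ, ∀ p ∈ V, ∀ q ∈ V, p ≠ q → y p = α * x p + β → y q = α * x q + β →
        ∀ r ∈ V, y r = α * x r + β → r = p ∨ r = q)
    (hx : ∀ p ∈ V, ∀ q ∈ V, x p = x q → p = q)
    (L₀ R₀ : Finset ι) (hLR : V = L₀ ∪ R₀) (hL : ∀ p ∈ L₀, x p < 0)
    (hR : ∀ p ∈ R₀, 0 < x p) (hK0 : W A L₀ R₀ ≤ K)
    (a b : ℕ) (hb : 1 ≤ b) (hba : b ≤ a) (hLa : L₀.card = a) (hRb : R₀.card = b) (k : ℕ) :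
    4 * (k + 1) * (a * b) + k * (k + 1) * (a + b) ^ 2 + k * (2 * (k + 1) * (a + b)) +
        2 * k * (k + 1) * W A V V ≤
      4 * (k + 1) ^ 2 * K + 2 * k * (k + 1) + 2 * k * (k + 1) * (a + b) ^ 2 + 4 * (a * b) := by
  classical
  have hdisj : Disjoint L₀ R₀ := by
    rw [Finset.disjoint_left]; intro c h h'; linarith [hL c h, hR c h']
  have hVc : V.card = a + b := by
    rw [hLR, Finset.card_union_of_disjoint hdisj, hLa, hRb]
  set N := 2 * (k + 1) with hN
  obtain ⟨fs, g1, g2, g3⟩ := hpeel_exists N A x y V K h0 hK hgp hx L₀ R₀ hLR hL hR (2 * b)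
    ((k + 1) * (a + b)) (by omega) (by
      rw [hLa, hN]
      have : (k + 1) * (a + b) ≤ (k + 1) * (2 * a) := Nat.mul_le_mul_left _ (by omega)
      linarith) (by
      rw [hRb, hN]
      have : (k + 1) * (2 * b) ≤ (k + 1) * (a + b) := Nat.mul_le_mul_left _ (by omega)
      linarith) k (R₀ ×ˢ (univ : Finset (Fin N)))
    (fun c hc => (Finset.mem_product.1 hc).1)
    (by rw [Finset.card_product, hRb]; simp only [Finset.card_univ, Fintype.card_fin]; rw [hN]; ring)
  have hS : V ×ˢ (univ : Finset (Fin N)) = (L₀ ×ˢ (univ : Finset (Fin N))) ∪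
      (R₀ ×ˢ (univ : Finset (Fin N))) := by
    rw [hLR]; ext c; simp only [Finset.mem_union, Finset.mem_product, Finset.mem_univ, and_true]
  set f0 : ι × Fin N → Bool := fun c => decide (0 < x c.1) with hf0
  have hb1 := halve_bound (Bl N A) (Bl_symm _ A hsym) (Bl_self _ A) (Bl_le _ A h1) (2 * b)
    ((k + 1) * (a + b)) f0 fs (L₀ ×ˢ (univ : Finset (Fin N))) (R₀ ×ˢ (univ : Finset (Fin N)))
    (by intro c hc; rw [Finset.mem_product] at hc; simp only [hf0, decide_eq_true_eq]
        exact hR _ hc.1)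
    (by intro c hc; rw [Finset.mem_product] at hc; simp only [hf0, decide_eq_false_iff_not, not_lt]
        exact (hL _ hc.1).le)
    (by rw [← hS]; exact g3)
  rw [← hS] at hb1
  -- cut by the first line
  have hc0 : Cr (Bl N A) f0 (V ×ˢ (univ : Finset (Fin N))) (V ×ˢ (univ : Finset (Fin N))) ≤
      N * N * K := by
    have e1 : Cr (Bl N A) f0 (V ×ˢ (univ : Finset (Fin N))) (V ×ˢ (univ : Finset (Fin N))) =
        N * N * W A L₀ R₀ := by
      rw [Cr_eq]
      have t1 : (V ×ˢ (univ : Finset (Fin N))).filter (fun c => f0 c = true) =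
          R₀ ×ˢ (univ : Finset (Fin N)) := by
        ext c
        simp only [hLR, hf0, Finset.mem_filter, Finset.mem_product, Finset.mem_univ, and_true,
          Finset.mem_union, decide_eq_true_eq]
        constructor
        · rintro ⟨h5 | h5, h6⟩
          · exact absurd (hL _ h5) (not_lt.2 h6.le)
          · exact h5
        · intro h5; exact ⟨Or.inr h5, hR _ h5⟩
      have t2 : (V ×ˢ (univ : Finset (Fin N))).filter (fun c => f0 c = false) =
          L₀ ×ˢ (univ : Finset (Fin N)) := by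
        ext c
        simp only [hLR, hf0, Finset.mem_filter, Finset.mem_product, Finset.mem_univ, and_true,
          Finset.mem_union, decide_eq_false_iff_not, not_lt]
        constructor
        · rintro ⟨h5 | h5, h6⟩
          · exact h5
          · exact absurd (hR _ h5) (not_lt.2 h6)
        · intro h5; exact ⟨Or.inl h5, (hL _ h5).le⟩
      rw [t1, t2, W_comm (Bl N A) (Bl_symm _ A hsym)]
      unfold W
      rw [Finset.sum_product, Finset.mul_sum]
      apply Finset.sum_congr rfl
      intro u hu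
      simp only [Finset.sum_product]
      rw [Finset.sum_comm, Finset.mul_sum]
      apply Finset.sum_congr rfl
      intro v hv
      have huv : u ≠ v := by rintro rfl; linarith [hL u hu, hR u hv]
      simp [Bl, huv, mul_assoc]
    rw [e1]
    exact Nat.mul_le_mul_left _ hK0
  have hcr : 2 * (fs.map (fun f => Cr (Bl N A) f (V ×ˢ (univ : Finset (Fin N)))
      (V ×ˢ (univ : Finset (Fin N))))).sum ≤ k * (2 * (N * N * K) + N * N) := by
    rw [← g1]
    have : ∀ (l : List (ι × Fin N → Bool)) (B : ℕ), (∀ f ∈ l, 2 * Cr (Bl N A) f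
        (V ×ˢ (univ : Finset (Fin N))) (V ×ˢ (univ : Finset (Fin N))) ≤ B) →
        2 * (l.map (fun f => Cr (Bl N A) f (V ×ˢ (univ : Finset (Fin N)))
          (V ×ˢ (univ : Finset (Fin N))))).sum ≤ l.length * B := by
      intro l B hl
      induction l with
      | nil => simp
      | cons f l ih =>
        simp only [List.map_cons, List.sum_cons, List.length_cons]
        have h5 := hl f (List.mem_cons_self ..)
        have h6 := ih (fun g hg => hl g (List.mem_cons_of_mem _ hg))
        nlinarith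
    exact this fs _ g2
  have hWW := W_Bl_VV N A h0 V
  have hScard : (V ×ˢ (univ : Finset (Fin N))).card = N * (a + b) := by
    rw [Finset.card_product, hVc]; simp [mul_comm]
  have hLcard : (L₀ ×ˢ (univ : Finset (Fin N))).card = N * a := by
    rw [Finset.card_product, hLa]; simp [mul_comm]
  have hRcard : (R₀ ×ˢ (univ : Finset (Fin N))).card = N * b := by
    rw [Finset.card_product, hRb]; simp [mul_comm]
  rw [hScard, hLcard, hRcard, g1] at hb1
  rw [hVc] at hWW
  have hsub : N * (a + b) - (k + 1) * (a + b) = (k + 1) * (a + b) := by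
    rw [hN, Nat.sub_eq_iff_eq_add]
    · ring
    · exact Nat.mul_le_mul_right _ (by omega)
  rw [hsub] at hb1
  generalize W (Bl N A) (V ×ˢ (univ : Finset (Fin N))) (V ×ˢ (univ : Finset (Fin N))) = W1 at *
  generalize (List.map (fun f => Cr (Bl N A) f (V ×ˢ (univ : Finset (Fin N)))
        (V ×ˢ (univ : Finset (Fin N)))) fs).sum = S1 at *
  generalize Cr (Bl N A) f0 (V ×ˢ (univ : Finset (Fin N))) (V ×ˢ (univ : Finset (Fin N))) = S0 at *
  generalize W A V V = W3 at *
  -- combine
  have hfin : (2 * (k + 1)) * (4 * (k + 1) * (a * b) + k * (k + 1) * (a + b) ^ 2 +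
      k * (2 * (k + 1) * (a + b)) + 2 * k * (k + 1) * W3) ≤
      (2 * (k + 1)) * (4 * (k + 1) ^ 2 * K + 2 * k * (k + 1) + 2 * k * (k + 1) * (a + b) ^ 2 +
        4 * (a * b)) := by
    have hk : k * (W1 + N * (a + b)) = k * (N * N * W3 + N * N * (a + b)) := by rw [hWW]
    clear hWW hScard hLcard hRcard hsub hS
    rw [hN] at hb1 hc0 hcr hk
    zify at *
    nlinarith
  exact Nat.le_of_mul_le_mul_left hfin (by omega)

end core

end Pool.Agent.Helper976.ELSS
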