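import Mathlib
import Pool.Agent.Helper976.ELSS.Core3

set_option linter.unusedSectionVars false
set_option linter.unusedVariables false

namespace Pool.Agent.Helper976.ELSS

open Finset Pool.Agent.LinesCross

section plane

variable (V : Finset (ℝ × ℝ)) (E : Finset (Sym2 (ℝ × ℝ)))

theorem plane_bound2 (hGP : GP V) (hEV : ∀ e ∈ E, ∀ p ∈ e, p ∈ V) (hE : ∀ e ∈ E, ¬ e.IsDiag)
    (K : ℕ) (hK : AllLinesLe V E K) (a b : ℕ) (hb : 1 ≤ b) (hba : b ≤ a) (hab : V.card = a + b)
    (k : ℕ) :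
    4 * k * (a * b) + 2 * k * (k + 1) * (a + b) + 4 * k * (k + 1) * E.card ≤
      4 * (k + 1) ^ 2 * K + 2 * k * (k + 1) + k * (k + 1) * (a + b) ^ 2 := by
  classical
  obtain ⟨t, ht⟩ := exists_shear V
  obtain ⟨c, hc1, hc2⟩ := exists_threshold (fun p : ℝ × ℝ => p.1 + t * p.2) V ht a (by omega)
  have hsplit : V = V.filter (fun p => p.1 + t * p.2 < c) ∪ V.filter (fun p => ¬ p.1 + t * p.2 < c) := by
    rw [Finset.filter_union_filter_not_eq]
  have hdisj : Disjoint (V.filter (fun p => p.1 + t * p.2 < c))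
    (V.filter (fun p => ¬ p.1 + t * p.2 < c)) := Finset.disjoint_filter_filter_not _ _ _
  have hcard : (V.filter (fun p => ¬ p.1 + t * p.2 < c)).card = b := by
    have := Finset.card_union_of_disjoint hdisj
    rw [← hsplit, hc2, hab] at this; omega
  have h2 := card_le_half V E (fun p => p.1 + t * p.2) ht hEV hE
  have := core_bound2 (Adj E) (fun p : ℝ × ℝ => p.1 + t * p.2 - c) (fun p => p.2) V K
    (Adj_symm E) (Adj_self E hE) (Adj_le E) (fun α β h => hK_of V E K hK t c α β h)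
    (by
      intro α β p hp q hq hpq h1 h2 r hr h3
      by_contra hcon
      push Not at hcon
      exact hGP p hp q hq r hr hpq (Ne.symm hcon.1) (Ne.symm hcon.2)
        (collinear_of_line t c α β p q r h1 h2 h3))
    (by
      intro p hp q hq h5
      exact ht p hp q hq (by linarith))
    _ _ hsplit
    (by intro p hp; rw [Finset.mem_filter] at hp; linarith [hp.2])
    (by
      intro p hp; rw [Finset.mem_filter, not_lt] at hp
      have := lt_of_le_of_ne hp.2 (hc1 p hp.1).symm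
      linarith)
    (by
      refine le_trans (W_le_cross E _ _ (fun p => 1 * p.1 + t * p.2) c ?_ ?_)
        (hK 1 t c (Or.inl one_ne_zero) ?_)
      · intro p hp; rw [Finset.mem_filter] at hp; simp only [one_mul]; exact hp.2
      · intro p hp; rw [Finset.mem_filter, not_lt] at hp; simp only [one_mul]
        exact lt_of_le_of_ne hp.2 (hc1 p hp.1).symm
      · intro p hp; rw [one_mul]; exact hc1 p hp)
    a b hb hba hc2 hcard k
  have h3 : 2 * k * (k + 1) * (2 * E.card) ≤ 2 * k * (k + 1) * W (Adj E) V V :=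
    Nat.mul_le_mul_left _ h2
  nlinarith

/-- second family of bounds, in terms of `n`, `e` -/
theorem second (hGP : GP V) (hEV : ∀ e ∈ E, ∀ p ∈ e, p ∈ V) (hE : ∀ e ∈ E, ¬ e.IsDiag)
    (K : ℕ) (hK : AllLinesLe V E K) (hn : 2 ≤ V.card) (k : ℕ) :
    4 * k * (k + 1) * E.card + 2 * k * (k + 1) * V.card ≤
      4 * (k + 1) ^ 2 * K + 2 * k * (k + 1) + k ^ 2 * V.card ^ 2 + k := by
  have h := plane_bound2 V E hGP hEV hE K hK (V.card - V.card / 2) (V.card / 2) (by omega) (by omega)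
    (by omega) k
  obtain ⟨a, δ, hδ, hn'⟩ : ∃ a δ, δ ≤ 1 ∧ V.card = 2 * a + δ := ⟨V.card / 2, V.card % 2, by omega, by omega⟩
  have e3 : V.card / 2 = a := by omega
  have e4 : V.card - V.card / 2 = a + δ := by omega
  rw [e4, e3] at h
  rw [hn']
  generalize E.card = e at *
  interval_cases δ <;> nlinarith

/-- first family of bounds (the peeling bound), in terms of `n`, `e` -/
theorem first (hGP : GP V) (hEV : ∀ e ∈ E, ∀ p ∈ e, p ∈ V) (hE : ∀ e ∈ E, ¬ e.IsDiag)
    (K : ℕ) (hK : AllLinesLe V E K) (hn : 2 ≤ V.card) (m : ℕ) (hm : 1 ≤ m) :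
    4 * m * E.card + 2 * m * V.card ≤
      2 * m ^ 2 * K + m * (m - 1) + 2 * V.card ^ 2 := by
  have h := plane_bound V E hGP hEV hE K hK
    (V.card / 2) (V.card - V.card / 2) (by omega) (by omega) (by omega) m hm
  obtain ⟨m', rfl⟩ : ∃ m', m = m' + 1 := ⟨m - 1, by omega⟩
  have e1 : m' + 1 - 1 = m' := by omega
  have e2 : 2 * (m' + 1) - 1 = 2 * m' + 1 := by omega
  rw [e1, e2] at h
  rw [e1]
  generalize V.card = n at *
  generalize E.card = e at *
  obtain ⟨r, hr⟩ : ∃ r, m' * (m' + 1) = 2 * r := by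
    have := Nat.even_mul_succ_self m'
    obtain ⟨r, hr⟩ := this
    exact ⟨r, by rw [hr]; ring⟩
  obtain ⟨a, δ, hδ, hn'⟩ : ∃ a δ, δ ≤ 1 ∧ n = 2 * a + δ := ⟨n / 2, n % 2, by omega, by omega⟩
  have e3 : n / 2 = a := by omega
  have e4 : n - n / 2 = a + δ := by omega
  rw [e4, e3] at h
  have key : 2 * (m' + 1) * e + (m' + 1) * n ≤ (m' + 1) ^ 2 * K + r + n ^ 2 := by
    have h5 : (m' + 1) * (2 * (m' + 1) * e + (m' + 1) * n) <
        (m' + 1) * ((m' + 1) ^ 2 * K + r + n ^ 2 + 1) := by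
      have hδ2 : δ * δ ≤ 1 := by nlinarith
      subst hn'
      have h6 : 2 * ((m' + 1) * r) = (m' + 1) * (m' * (m' + 1)) := by rw [hr]; ring
      have h7 : δ * δ * m' ≤ m' := by nlinarith
      zify at *
      nlinarith
    exact Nat.lt_succ_iff.1 (Nat.lt_of_mul_lt_mul_left h5)
  have e5 : (m' + 1) * m' = 2 * r := by rw [← hr]; ring
  rw [e5]
  nlinarith

end plane

end Pool.Agent.Helper976.ELSS
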