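import Mathlib
import Pool.Agent.Helper976.ELSS.Plane2
import Pool.Agent.Helper976.ELSS.Arith
import Pool.Agent.Helper976.ELSS.Arith2

set_option linter.unusedVariables false

/-!
# From graphs drawn in `EuclideanSpace ℝ (Fin 2)` to the combinatorial setting
-/

namespace Pool.Agent.Helper976.ELSS

open Finset Pool.Agent.LinesCross

/-- coordinates -/
def co (x : EuclideanSpace ℝ (Fin 2)) : ℝ × ℝ := (x 0, x 1)

theorem co_inj : Function.Injective co := by
  intro x y h
  have h0 : x 0 = y 0 := congrArg Prod.fst h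
  have h1 : x 1 = y 1 := congrArg Prod.snd h
  ext i
  fin_cases i
  · exact h0
  · exact h1

/-- the line `a x + b y = c` -/
noncomputable def lineSub (a b c : ℝ) : AffineSubspace ℝ (EuclideanSpace ℝ (Fin 2)) :=
  AffineSubspace.mk' (!₂[a * c / (a ^ 2 + b ^ 2), b * c / (a ^ 2 + b ^ 2)])
    (Submodule.span ℝ {!₂[-b, a]})

theorem mem_lineSub (a b c : ℝ) (hab : a ≠ 0 ∨ b ≠ 0) (x : EuclideanSpace ℝ (Fin 2)) :
    x ∈ lineSub a b c ↔ a * x 0 + b * x 1 = c := by
  have hpos : 0 < a ^ 2 + b ^ 2 := by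
    rcases hab with h | h
    · have := sq_nonneg b; positivity
    · have := sq_nonneg a; positivity
  unfold lineSub
  rw [AffineSubspace.mem_mk', Submodule.mem_span_singleton]
  constructor
  · rintro ⟨t, ht⟩
    have h0 := congrArg (fun v : EuclideanSpace ℝ (Fin 2) => v 0) ht
    have h1 := congrArg (fun v : EuclideanSpace ℝ (Fin 2) => v 1) ht
    simp at h0 h1
    have e0 : x 0 = a * c / (a ^ 2 + b ^ 2) - t * b := by linarith
    have e1 : x 1 = b * c / (a ^ 2 + b ^ 2) + t * a := by linarith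
    rw [e0, e1]
    field_simp
    ring
  · intro h
    refine ⟨(-b * (x 0 - a * c / (a ^ 2 + b ^ 2)) + a * (x 1 - b * c / (a ^ 2 + b ^ 2))) /
      (a ^ 2 + b ^ 2), ?_⟩
    ext i
    fin_cases i
    · simp
      field_simp
      rw [← h]; ring
    · simp
      field_simp
      rw [← h]; ring

theorem finrank_lineSub (a b c : ℝ) (hab : a ≠ 0 ∨ b ≠ 0) :
    Module.finrank ℝ (lineSub a b c).direction = 1 := by
  unfold lineSub
  rw [AffineSubspace.direction_mk']
  apply finrank_span_singleton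
  intro h
  have h0 := congrArg (fun v : EuclideanSpace ℝ (Fin 2) => v 0) h
  have h1 := congrArg (fun v : EuclideanSpace ℝ (Fin 2) => v 1) h
  simp at h0 h1
  rcases hab with h' | h'
  · exact h' h1
  · exact h' h0

section

variable {n : ℕ} (p : Fin n → EuclideanSpace ℝ (Fin 2)) (G : SimpleGraph (Fin n))

/-- the number of edges of the drawn graph met by `L` -/
noncomputable def met (L : AffineSubspace ℝ (EuclideanSpace ℝ (Fin 2))) : ℕ :=
  ({q : Fin n × Fin n | q.1 < q.2 ∧ G.Adj q.1 q.2 ∧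
    ((L : Set (EuclideanSpace ℝ (Fin 2))) ∩ segment ℝ (p q.1) (p q.2)).Nonempty}).ncard

open Classical in
/-- ordered edges -/
noncomputable def oe : Finset (Fin n × Fin n) := univ.filter (fun q => q.1 < q.2 ∧ G.Adj q.1 q.2)

open Classical in
/-- vertices -/
noncomputable def vs : Finset (ℝ × ℝ) := univ.image (fun i => co (p i))

open Classical in
/-- edges -/
noncomputable def es : Finset (Sym2 (ℝ × ℝ)) := (oe G).image (fun q => s(co (p q.1), co (p q.2)))

theorem card_vs (hp : Function.Injective p) : (vs p).card = n := by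
  classical
  unfold vs
  have hinj : Function.Injective (fun i => co (p i)) := fun i j h => hp (co_inj h)
  rw [Finset.card_image_of_injective _ hinj]
  simp

theorem card_oe : (oe G).card = G.edgeSet.ncard := by
  classical
  have h1 : G.edgeSet = (fun q : Fin n × Fin n => s(q.1, q.2)) '' (↑(oe G) : Set (Fin n × Fin n)) := by
    ext e
    induction e using Sym2.ind with
    | _ i j =>
      simp only [SimpleGraph.mem_edgeSet, Set.mem_image, oe, Finset.coe_filter, Finset.mem_univ,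
        true_and, Set.mem_ofPred_eq]
      constructor
      · intro h
        rcases lt_or_gt_of_ne h.ne with h' | h'
        · exact ⟨(i, j), ⟨h', h⟩, rfl⟩
        · exact ⟨(j, i), ⟨h', h.symm⟩, Sym2.eq_swap⟩
      · rintro ⟨⟨a, b⟩, ⟨h1, h2⟩, h3⟩
        simp only [Sym2.eq_iff] at h3
        rcases h3 with ⟨rfl, rfl⟩ | ⟨rfl, rfl⟩
        · exact h2
        · exact h2.symm
  rw [h1, Set.InjOn.ncard_image, Set.ncard_coe_finset]
  rintro ⟨a, b⟩ ha ⟨c, d⟩ hc h
  simp only [oe, Finset.coe_filter, Finset.mem_univ, true_and, Set.mem_ofPred_eq] at ha hc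
  simp only [Sym2.eq_iff] at h
  rcases h with ⟨rfl, rfl⟩ | ⟨rfl, rfl⟩
  · rfl
  · exact absurd ha.1 (not_lt.2 hc.1.le)

theorem card_es (hp : Function.Injective p) : (es p G).card = G.edgeSet.ncard := by
  classical
  unfold es
  rw [Finset.card_image_of_injOn, card_oe]
  rintro ⟨a, b⟩ ha ⟨c, d⟩ hc h
  simp only [oe, Finset.coe_filter, Finset.mem_univ, true_and, Set.mem_ofPred_eq] at ha hc
  simp only [Sym2.eq_iff] at h
  rcases h with ⟨h1, h2⟩ | ⟨h1, h2⟩
  · rw [hp (co_inj h1), hp (co_inj h2)]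
  · have e1 := hp (co_inj h1)
    have e2 := hp (co_inj h2)
    subst e1 e2
    exact absurd ha.1 (not_lt.2 hc.1.le)

theorem es_mem : ∀ e ∈ es p G, ∀ x ∈ e, x ∈ vs p := by
  classical
  intro e he x hx
  unfold es at he
  rw [Finset.mem_image] at he
  obtain ⟨q, hq, rfl⟩ := he
  unfold vs
  rw [Finset.mem_image]
  rw [Sym2.mem_iff] at hx
  rcases hx with rfl | rfl
  · exact ⟨q.1, Finset.mem_univ _, rfl⟩
  · exact ⟨q.2, Finset.mem_univ _, rfl⟩

theorem es_ne (hp : Function.Injective p) : ∀ e ∈ es p G, ¬ e.IsDiag := by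
  classical
  intro e he
  unfold es at he
  rw [Finset.mem_image] at he
  obtain ⟨q, hq, rfl⟩ := he
  rw [Sym2.mk_isDiag_iff]
  intro h
  have := hp (co_inj h)
  unfold oe at hq
  rw [Finset.mem_filter] at hq
  exact hq.2.1.ne this

theorem vs_GP (hgp : ∀ i j k : Fin n, i ≠ j → j ≠ k → i ≠ k →
      ¬ Collinear ℝ ({p i, p j, p k} : Set (EuclideanSpace ℝ (Fin 2)))) : GP (vs p) := by
  classical
  intro x hx y hy z hz hxy hxz hyz hcol
  unfold vs at hx hy hz
  rw [Finset.mem_image] at hx hy hz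
  obtain ⟨i, _, rfl⟩ := hx
  obtain ⟨j, _, rfl⟩ := hy
  obtain ⟨k, _, rfl⟩ := hz
  apply hgp i j k (by rintro rfl; exact hxy rfl) (by rintro rfl; exact hyz rfl)
    (by rintro rfl; exact hxz rfl)
  rw [collinear_iff_of_mem (p₀ := co (p i)) (by simp)] at hcol
  obtain ⟨v, hv⟩ := hcol
  rw [collinear_iff_of_mem (p₀ := p i) (by simp)]
  refine ⟨!₂[v.1, v.2], ?_⟩
  have key : ∀ x : EuclideanSpace ℝ (Fin 2), (∃ r : ℝ, co x = r • v +ᵥ co (p i)) →
      ∃ r : ℝ, x = r • (!₂[v.1, v.2] : EuclideanSpace ℝ (Fin 2)) +ᵥ p i := by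
    rintro x ⟨r, hr⟩
    refine ⟨r, ?_⟩
    have h0 := congrArg Prod.fst hr
    have h1 := congrArg Prod.snd hr
    simp only [co, vadd_eq_add, Prod.fst_add, Prod.smul_fst, smul_eq_mul, Prod.snd_add,
      Prod.smul_snd] at h0 h1
    ext t
    fin_cases t
    · simp; exact h0
    · simp; exact h1
  intro x hx
  simp only [Set.mem_insert_iff, Set.mem_singleton_iff] at hx
  rcases hx with rfl | rfl | rfl
  · exact key _ (hv _ (by simp))
  · exact key _ (hv _ (by simp))
  · exact key _ (hv _ (by simp))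

theorem seg_meets (a b c : ℝ) (hab : a ≠ 0 ∨ b ≠ 0) (P Q : EuclideanSpace ℝ (Fin 2))
    (h1 : a * P 0 + b * P 1 < c) (h2 : c < a * Q 0 + b * Q 1) :
    ∃ x : EuclideanSpace ℝ (Fin 2), x ∈ lineSub a b c ∧ x ∈ segment ℝ P Q := by
  have hd : 0 < (a * Q 0 + b * Q 1) - (a * P 0 + b * P 1) := by linarith
  refine ⟨(((a * Q 0 + b * Q 1) - c) / ((a * Q 0 + b * Q 1) - (a * P 0 + b * P 1))) • P +
    ((c - (a * P 0 + b * P 1)) / ((a * Q 0 + b * Q 1) - (a * P 0 + b * P 1))) • Q, ?_,
    ((a * Q 0 + b * Q 1) - c) / ((a * Q 0 + b * Q 1) - (a * P 0 + b * P 1)),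
    (c - (a * P 0 + b * P 1)) / ((a * Q 0 + b * Q 1) - (a * P 0 + b * P 1)),
    div_nonneg (by linarith) hd.le, div_nonneg (by linarith) hd.le, ?_, rfl⟩
  · rw [mem_lineSub a b c hab]
    have e0 : ∀ (s t : ℝ) (k : Fin 2), (s • P + t • Q) k = s * P k + t * Q k := by
      intro s t k; simp
    rw [e0, e0]
    generalize P 0 = P0 at *
    generalize P 1 = P1 at *
    generalize Q 0 = Q0 at *
    generalize Q 1 = Q1 at *
    field_simp
    ring
  · rw [← add_div]
    rw [div_eq_one_iff_eq hd.ne']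
    ring

open Classical in
theorem met_eq (L : AffineSubspace ℝ (EuclideanSpace ℝ (Fin 2))) :
    met p G L = ((oe G).filter (fun q => ∃ x, x ∈ L ∧ x ∈ segment ℝ (p q.1) (p q.2))).card := by
  unfold met
  rw [← Set.ncard_coe_finset]
  congr 1
  ext q
  simp only [oe, Set.mem_ofPred_eq, Finset.coe_filter, Finset.mem_filter, Finset.mem_univ, true_and,
    Set.Nonempty, Set.mem_inter_iff, SetLike.mem_coe]
  tauto

theorem mem_vs (i : Fin n) : co (p i) ∈ vs p := by
  classical
  unfold vs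
  exact Finset.mem_image.2 ⟨i, Finset.mem_univ _, rfl⟩

open Classical in
theorem cross_le (a b c : ℝ) (L : AffineSubspace ℝ (EuclideanSpace ℝ (Fin 2)))
    (key : ∀ i j : Fin n, a * (co (p i)).1 + b * (co (p i)).2 < c →
      c < a * (co (p j)).1 + b * (co (p j)).2 →
      ∃ x : EuclideanSpace ℝ (Fin 2), x ∈ L ∧ x ∈ segment ℝ (p i) (p j)) :
    ((es p G).filter (fun e => ∃ u v, e = s(u, v) ∧ a * u.1 + b * u.2 < c ∧
      c < a * v.1 + b * v.2)).card ≤ met p G L := by
  rw [met_eq]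
  set T : Finset (Fin n × Fin n) := (oe G).filter (fun q =>
    ∃ x, x ∈ L ∧ x ∈ segment ℝ (p q.1) (p q.2)) with hT
  have himg : (T.image (fun q => s(co (p q.1), co (p q.2)))).card ≤ T.card := Finset.card_image_le
  refine le_trans (Finset.card_le_card ?_) himg
  intro e he
  rw [Finset.mem_filter] at he
  obtain ⟨he1, u, v, he2, hu, hv⟩ := he
  unfold es at he1
  rw [Finset.mem_image] at he1
  obtain ⟨q, hq, rfl⟩ := he1
  rw [Finset.mem_image]
  refine ⟨q, ?_, rfl⟩
  rw [hT, Finset.mem_filter]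
  refine ⟨hq, ?_⟩
  rw [Sym2.eq_iff] at he2
  rcases he2 with ⟨h1, h2⟩ | ⟨h1, h2⟩
  · rw [← h1] at hu
    rw [← h2] at hv
    exact key q.1 q.2 hu hv
  · rw [← h2] at hu
    rw [← h1] at hv
    obtain ⟨x, hx1, hx2⟩ := key q.2 q.1 hu hv
    rw [segment_symm] at hx2
    exact ⟨x, hx1, hx2⟩

theorem allLines_of (K : ℕ)
    (h : ∀ L : AffineSubspace ℝ (EuclideanSpace ℝ (Fin 2)), Module.finrank ℝ L.direction = 1 →
      (∀ i, p i ∉ L) → met p G L ≤ K) : AllLinesLe (vs p) (es p G) K := by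
  intro a b c hab hc
  have hav : ∀ i, p i ∉ lineSub a b c := by
    intro i hi
    rw [mem_lineSub a b c hab] at hi
    exact hc (co (p i)) (mem_vs p i) hi
  have hle := h (lineSub a b c) (finrank_lineSub a b c hab) hav
  have hcr := cross_le p G a b c (lineSub a b c)
    (fun i j h1 h2 => seg_meets a b c hab (p i) (p j) h1 h2)
  exact hcr.trans hle

theorem exists_avoid : ∃ L : AffineSubspace ℝ (EuclideanSpace ℝ (Fin 2)),
    Module.finrank ℝ L.direction = 1 ∧ ∀ i, p i ∉ L := by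
  obtain ⟨t, ht⟩ := exists_shear (vs p)
  obtain ⟨c, hc1, _⟩ := exists_threshold (fun p : ℝ × ℝ => p.1 + t * p.2) (vs p) ht 0 (by omega)
  refine ⟨lineSub 1 t c, finrank_lineSub 1 t c (Or.inl one_ne_zero), fun i hi => ?_⟩
  rw [mem_lineSub 1 t c (Or.inl one_ne_zero)] at hi
  refine hc1 (co (p i)) (by unfold vs; exact Finset.mem_image_of_mem _ (Finset.mem_univ _)) ?_
  show p i 0 + t * p i 1 = c
  linarith

/-- a lower bound valid for all upper bounds gives a line -/
theorem exists_line (B : ℝ) (h : ∀ K : ℕ, AllLinesLe (vs p) (es p G) K → B ≤ K) :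
    ∃ L : AffineSubspace ℝ (EuclideanSpace ℝ (Fin 2)),
      Module.finrank ℝ L.direction = 1 ∧ (∀ i, p i ∉ L) ∧ B ≤ (met p G L : ℝ) := by
  by_contra hcon
  push Not at hcon
  rcases le_or_gt B 0 with hB | hB
  · obtain ⟨L, h1, h2⟩ := exists_avoid p
    have := hcon L h1 h2
    have h3 : (0:ℝ) ≤ met p G L := Nat.cast_nonneg _
    linarith
  · have hc : 1 ≤ ⌈B⌉₊ := by rw [Nat.one_le_ceil_iff]; exact hB
    have h1 : AllLinesLe (vs p) (es p G) (⌈B⌉₊ - 1) := by
      apply allLines_of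
      intro L h2 h3
      have h4 := hcon L h2 h3
      have h5 : (met p G L : ℝ) < ⌈B⌉₊ := lt_of_lt_of_le h4 (Nat.le_ceil B)
      have h6 : met p G L < ⌈B⌉₊ := by exact_mod_cast h5
      omega
    have h2 := h _ h1
    have h3 := Nat.ceil_lt_add_one hB.le
    rw [Nat.cast_sub hc] at h2
    push_cast at h2
    linarith

/-- if no line crosses an edge there is no edge -/
theorem edge_of (hp : Function.Injective p) (K : ℕ) (hK : AllLinesLe (vs p) (es p G) K)
    (he : 1 ≤ (es p G).card) : 1 ≤ K := by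
  classical
  obtain ⟨e, he⟩ := Finset.card_pos.1 he
  obtain ⟨t, ht⟩ := exists_shear (vs p)
  induction e using Sym2.ind with
  | _ u v =>
    have hu := es_mem p G _ he u (by simp)
    have hv := es_mem p G _ he v (by simp)
    have huv : u ≠ v := by
      rintro rfl; exact es_ne p G hp _ he (by simp)
    have hne : u.1 + t * u.2 ≠ v.1 + t * v.2 := fun h => huv (ht u hu v hv h)
    have key : ∀ u v : ℝ × ℝ, s(u, v) ∈ es p G → u.1 + t * u.2 < v.1 + t * v.2 → 1 ≤ K := by
      intro u v he' hlt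
      obtain ⟨c, hc, hc2⟩ := (Set.Ioo_infinite hlt).exists_notMem_finset
        ((vs p).image (fun q => q.1 + t * q.2))
      have h1 := hK 1 t c (Or.inl one_ne_zero) (by
        intro q hq h
        apply hc2
        rw [Finset.mem_image]
        exact ⟨q, hq, by linarith⟩)
      refine le_trans ?_ h1
      rw [Nat.one_le_iff_ne_zero, Finset.card_ne_zero]
      refine ⟨s(u, v), ?_⟩
      rw [Finset.mem_filter]
      exact ⟨he', u, v, rfl, by linarith [hc.1], by linarith [hc.2]⟩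
    rcases lt_or_gt_of_ne hne with h | h
    · exact key u v he h
    · exact key v u (by rw [Sym2.eq_swap]; exact he) h

/-- **The two families of bounds give everything.** -/
theorem main_aux (hp : Function.Injective p)
    (hgp : ∀ i j k : Fin n, i ≠ j → j ≠ k → i ≠ k →
      ¬ Collinear ℝ ({p i, p j, p k} : Set (EuclideanSpace ℝ (Fin 2))))
    (K : ℕ) (hK : AllLinesLe (vs p) (es p G) K) :
    ((n ≤ 165 ∨ G.edgeSet.ncard ≤ 47 * n ∨ 10 * G.edgeSet.ncard ^ 3 ≤ 39 * n ^ 5 ∨
      (n ^ 2 - 2 * G.edgeSet.ncard) ^ 4 ≤ n ^ 7) →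
      ((G.edgeSet.ncard : ℝ) / n) ^ 2 ≤ K) ∧
    (48 / 49 : ℝ) * ((G.edgeSet.ncard : ℝ) / n) ^ 2 ≤ K ∧
    (1 - 1 / (2 * ((n ^ 2 / G.edgeSet.ncard : ℕ) : ℝ) + 1) ^ 2) *
      ((G.edgeSet.ncard : ℝ) / n) ^ 2 ≤ K := by
  classical
  set e := G.edgeSet.ncard with he
  have hec := card_es p G hp
  have hvc := card_vs p hp
  rw [← he] at hec
  have h2e : 2 * e + n ≤ n * n := by
    obtain ⟨t, ht⟩ := exists_shear (vs p)
    have h1 := card_le_half (vs p) (es p G) (fun p => p.1 + t * p.2) ht (es_mem p G) (es_ne p G hp)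
    have h2 := W_self_le (Adj (es p G)) (Adj_self _ (es_ne p G hp)) (Adj_le _) (vs p)
    rw [hec] at h1
    rw [hvc] at h2
    omega
  have hKnn : (0:ℝ) ≤ K := Nat.cast_nonneg _
  rcases Nat.lt_or_ge e n with hlt | hge
  · -- sparse case
    have hx1 : ((e:ℝ) / n) ^ 2 ≤ K := by
      rcases Nat.eq_zero_or_pos e with h0 | h0
      · rw [h0]; simp [hKnn]
      · have h1 := edge_of p G hp K hK (by rw [hec]; exact h0)
        have h2 : (1:ℝ) ≤ K := by exact_mod_cast h1
        have hn0 : (0:ℝ) < n := by exact_mod_cast (by omega : 0 < n)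
        have h3 : (e:ℝ) / n ≤ 1 := by
          rw [div_le_one hn0]; exact_mod_cast hlt.le
        have h4 : ((e:ℝ) / n) ^ 2 ≤ 1 ^ 2 := pow_le_pow_left₀ (by positivity) h3 2
        linarith
    have hsq : (0:ℝ) ≤ ((e:ℝ) / n) ^ 2 := by positivity
    refine ⟨fun _ => hx1, by linarith, ?_⟩
    have h5 : (0:ℝ) ≤ 1 / (2 * ((n ^ 2 / e : ℕ) : ℝ) + 1) ^ 2 := by positivity
    nlinarith
  · rcases Nat.lt_or_ge n 2 with hn | hn
    · have he0 : e = 0 := by
        have h5 : n * n ≤ 1 * n := Nat.mul_le_mul_right n (by omega)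
        omega
      rw [he0]
      simp [hKnn]
    have he2 : 2 * e ≤ n * (n - 1) := by
      rw [Nat.mul_sub, mul_one]; omega
    have hA : ∀ m : ℕ, 1 ≤ m → 4 * m * e + 2 * m * n ≤ 2 * m ^ 2 * K + m * (m - 1) + 2 * n ^ 2 := by
      intro m hm
      have := first (vs p) (es p G) (vs_GP p hgp) (es_mem p G) (es_ne p G hp) K hK
        (by rw [hvc]; exact hn) m hm
      rwa [hec, hvc] at this
    have hB : ∀ k : ℕ, 4 * k * (k + 1) * e + 2 * k * (k + 1) * n ≤
        4 * (k + 1) ^ 2 * K + 2 * k * (k + 1) + k ^ 2 * n ^ 2 + k := by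
      intro k
      have := second (vs p) (es p G) (vs_GP p hgp) (es_mem p G) (es_ne p G hp) K hK
        (by rw [hvc]; exact hn) k
      rwa [hec, hvc] at this
    refine ⟨fun h => ?_, factor2 n e K hn hge he2 hA hB, factor1 n e K hn hge he2 hA⟩
    by_contra hcon
    push Not at hcon
    have hn0 : (0:ℝ) < n := by exact_mod_cast (by omega : 0 < n)
    have hK' : K * n ^ 2 < e ^ 2 := by
      rw [div_pow, lt_div_iff₀ (by positivity)] at hcon
      exact_mod_cast hcon
    exact exact_range n e K hn hge he2 hA hB hK' h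

end

end Pool.Agent.Helper976.ELSS
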